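import Pool.Agent.R963.TS.Lap

/-!
# Bounds for the ratios of the Laplace integrals
-/

set_option autoImplicit false

open MeasureTheory Filter Topology Set

namespace Pool.Agent.R963.TS

noncomputable def L3 : ℝ := Real.log 3

lemma L3_gt : (1.0986122885 : ℝ) < L3 := Real.log_three_gt_d9
lemma L3_lt : L3 < (1.0986122888 : ℝ) := Real.log_three_lt_d9
lemma L3_pos : 0 < L3 := by linarith [L3_gt]

lemma sinh_L3 : Real.sinh L3 = 4 / 3 := by
  unfold L3
  rw [Real.sinh_eq, Real.exp_neg, Real.exp_log (by norm_num)]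
  norm_num

lemma cosh_L3 : Real.cosh L3 = 5 / 3 := by
  unfold L3
  rw [Real.cosh_eq, Real.exp_neg, Real.exp_log (by norm_num)]
  norm_num

/-- the sign change argument -/
lemma LL_bound (j : ℕ) (s : ℝ) (hs : 0 < s) (hs1 : s ≤ 3 / 5)
    (hI : 0 ≤ ∫ x in (0 : ℝ)..L3, (s ^ j - uu x ^ j)) {t : ℝ} (ht : 0 < t) :
    LL ks j t ≤ s ^ j * LL ks 0 t := by
  obtain ⟨xs, hxs0, hxs⟩ : ∃ xs : ℝ, 0 ≤ xs ∧ uu xs = s := by
    refine ⟨Real.arcosh (1 + s), Real.arcosh_nonneg (by linarith), ?_⟩
    unfold uu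
    rw [Real.cosh_arcosh (by linarith)]
    ring
  set W : ℝ → ℝ := fun x => 4 * max (kap (Real.sinh x)) 0 * Real.exp (-(t * uu x)) with hW
  have hWanti : ∀ x y, 0 ≤ x → x ≤ y → W y ≤ W x := by
    intro x y hx hxy
    simp only [hW]
    have h1 : max (kap (Real.sinh y)) 0 ≤ max (kap (Real.sinh x)) 0 :=
      kap_pos_anti (Real.sinh_nonneg_iff.2 hx) (Real.sinh_le_sinh.2 hxy)
    have h2 : Real.exp (-(t * uu y)) ≤ Real.exp (-(t * uu x)) := by
      apply Real.exp_le_exp.2
      nlinarith [uu_mono hx hxy]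
    have h3 : 0 ≤ max (kap (Real.sinh y)) 0 := le_max_right _ _
    have h4 : 0 ≤ max (kap (Real.sinh x)) 0 := le_max_right _ _
    gcongr
  have hW0 : ∀ x, 0 ≤ W x := by
    intro x
    simp only [hW]
    have h3 : 0 ≤ max (kap (Real.sinh x)) 0 := le_max_right _ _
    positivity
  -- pointwise bound
  have hpt : ∀ x ∈ Ioi (0 : ℝ), (Iic L3).indicator (fun x => (s ^ j - uu x ^ j) * W xs) x ≤
      s ^ j * (ks x * uu x ^ 0 * Real.exp (-(t * uu x))) -
        ks x * uu x ^ j * Real.exp (-(t * uu x)) := by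
    intro x hx
    have hx0 : 0 < x := hx
    have hsx : 0 < Real.sinh x := Real.sinh_pos_iff.2 hx0
    have he : s ^ j * (ks x * uu x ^ 0 * Real.exp (-(t * uu x))) -
        ks x * uu x ^ j * Real.exp (-(t * uu x)) =
        (s ^ j - uu x ^ j) * (4 * kap (Real.sinh x) * Real.exp (-(t * uu x))) := by
      unfold ks; ring
    rw [he]
    have hsq : Real.sinh x ^ 2 = Real.cosh x ^ 2 - 1 := by rw [Real.cosh_sq]; ring
    have hch := Real.one_le_cosh x
    -- if kap negative then u >= s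
    have hneg : kap (Real.sinh x) < 0 → s ^ j ≤ uu x ^ j := by
      intro hk
      have h1 : 5 / 3 < Real.sinh x ^ 2 := by
        by_contra hcon
        push Not at hcon
        linarith [kap_nonneg hsx hcon]
      have h2 : s ≤ uu x := by
        unfold uu
        by_contra hcon
        push Not at hcon
        have : Real.cosh x < 8 / 5 := by linarith
        nlinarith
      exact pow_le_pow_left₀ hs.le h2 j
    by_cases hxL : x ≤ L3
    · rw [indicator_of_mem (by exact hxL)]
      have h3 : (s ^ j - uu x ^ j) * W x ≤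
          (s ^ j - uu x ^ j) * (4 * kap (Real.sinh x) * Real.exp (-(t * uu x))) := by
        simp only [hW]
        rcases le_or_gt 0 (kap (Real.sinh x)) with hk | hk
        · rw [max_eq_left hk]
        · rw [max_eq_right hk.le]
          have h4 := hneg hk
          have h5 : 0 < Real.exp (-(t * uu x)) := Real.exp_pos _
          have h6 : (uu x ^ j - s ^ j) * ((-kap (Real.sinh x)) * Real.exp (-(t * uu x))) ≥ 0 :=
            mul_nonneg (by linarith) (mul_nonneg (by linarith) h5.le)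
          nlinarith
      refine le_trans ?_ h3
      rcases le_total x xs with h | h
      · have h4 : uu x ≤ s := by rw [← hxs]; exact uu_mono hx0.le h
        have h5 : uu x ^ j ≤ s ^ j := pow_le_pow_left₀ (uu_nonneg x) h4 j
        exact mul_le_mul_of_nonneg_left (hWanti x xs hx0.le h) (by linarith)
      · have h4 : s ≤ uu x := by rw [← hxs]; exact uu_mono hxs0 h
        have h5 : s ^ j ≤ uu x ^ j := pow_le_pow_left₀ hs.le h4 j
        exact mul_le_mul_of_nonpos_left (hWanti xs x hxs0 h) (by linarith)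
    · rw [indicator_of_notMem (by exact hxL)]
      push Not at hxL
      have h1 : 4 / 3 < Real.sinh x := by rw [← sinh_L3]; exact Real.sinh_lt_sinh.2 hxL
      have h2 : kap (Real.sinh x) ≤ 0 := kap_nonpos hsx (by nlinarith)
      have h3 : s ≤ uu x := by
        have : uu L3 ≤ uu x := uu_mono L3_pos.le hxL.le
        unfold uu at this ⊢
        rw [cosh_L3] at this
        linarith
      have h5 : s ^ j ≤ uu x ^ j := pow_le_pow_left₀ hs.le h3 j
      have h6 : 0 < Real.exp (-(t * uu x)) := Real.exp_pos _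
      have h7 : 0 ≤ (uu x ^ j - s ^ j) * ((-kap (Real.sinh x)) * Real.exp (-(t * uu x))) :=
        mul_nonneg (by linarith) (mul_nonneg (by linarith) h6.le)
      nlinarith
  have hint1 : IntegrableOn (fun x => s ^ j * (ks x * uu x ^ 0 * Real.exp (-(t * uu x))) -
        ks x * uu x ^ j * Real.exp (-(t * uu x))) (Ioi 0) :=
    ((ks_gd.int 0 ht).const_mul _).sub (ks_gd.int j ht)
  have hcont : Continuous (fun x => (s ^ j - uu x ^ j) * W xs) := by
    have := uu_cont
    fun_prop
  have hint2 : IntegrableOn ((Iic L3).indicator (fun x => (s ^ j - uu x ^ j) * W xs)) (Ioi 0) := by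
    rw [IntegrableOn, integrable_indicator_iff measurableSet_Iic, IntegrableOn,
      Measure.restrict_restrict measurableSet_Iic, inter_comm, Ioi_inter_Iic]
    exact (hcont.integrableOn_Icc).mono_set Ioc_subset_Icc_self
  have h1 := setIntegral_mono_on hint2 hint1 measurableSet_Ioi hpt
  have h2 : ∫ x in Ioi (0 : ℝ), (Iic L3).indicator (fun x => (s ^ j - uu x ^ j) * W xs) x =
      (∫ x in (0 : ℝ)..L3, (s ^ j - uu x ^ j)) * W xs := by
    rw [setIntegral_indicator measurableSet_Iic, Ioi_inter_Iic,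
      ← intervalIntegral.integral_of_le L3_pos.le, intervalIntegral.integral_mul_const]
  have h3 : ∫ x in Ioi (0 : ℝ), (s ^ j * (ks x * uu x ^ 0 * Real.exp (-(t * uu x))) -
        ks x * uu x ^ j * Real.exp (-(t * uu x))) = s ^ j * LL ks 0 t - LL ks j t := by
    rw [integral_sub, integral_const_mul]
    · rfl
    · exact (ks_gd.int 0 ht).const_mul _
    · exact ks_gd.int j ht
  rw [h2, h3] at h1
  have h4 : 0 ≤ (∫ x in (0 : ℝ)..L3, (s ^ j - uu x ^ j)) * W xs := mul_nonneg hI (hW0 xs)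
  linarith

lemma int1 : 0 ≤ ∫ x in (0 : ℝ)..L3, ((6 / 25 : ℝ) ^ 1 - uu x ^ 1) := by
  have hd : ∀ x ∈ uIcc (0 : ℝ) L3, HasDerivAt (fun x => (6 / 25 : ℝ) * x - (Real.sinh x - x))
      ((6 / 25 : ℝ) ^ 1 - uu x ^ 1) x := by
    intro x _
    have := ((hasDerivAt_id' x).const_mul (6 / 25 : ℝ)).fun_sub
      ((Real.hasDerivAt_sinh x).fun_sub (hasDerivAt_id' x))
    refine this.congr_deriv ?_
    unfold uu; ring
  have hc : Continuous (fun x => ((6 / 25 : ℝ) ^ 1 - uu x ^ 1)) := by
    have := uu_cont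
    fun_prop
  rw [intervalIntegral.integral_eq_sub_of_hasDerivAt hd (hc.intervalIntegrable _ _), sinh_L3]
  simp
  linarith [L3_gt]

lemma int2 : 0 ≤ ∫ x in (0 : ℝ)..L3, ((3 / 10 : ℝ) ^ 2 - uu x ^ 2) := by
  have hd : ∀ x ∈ uIcc (0 : ℝ) L3, HasDerivAt (fun x => (9 / 100 : ℝ) * x -
      (3 / 2 * x + Real.sinh x * Real.cosh x / 2 - 2 * Real.sinh x))
      ((3 / 10 : ℝ) ^ 2 - uu x ^ 2) x := by
    intro x _
    have := ((hasDerivAt_id' x).const_mul (9 / 100 : ℝ)).fun_sub
      ((((hasDerivAt_id' x).const_mul (3 / 2 : ℝ)).fun_add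
      (((Real.hasDerivAt_sinh x).fun_mul (Real.hasDerivAt_cosh x)).div_const 2)).fun_sub
      ((Real.hasDerivAt_sinh x).const_mul 2))
    refine this.congr_deriv ?_
    unfold uu
    have hsq : Real.sinh x ^ 2 = Real.cosh x ^ 2 - 1 := by rw [Real.cosh_sq]; ring
    linear_combination (-1 / 2) * hsq
  have hc : Continuous (fun x => ((3 / 10 : ℝ) ^ 2 - uu x ^ 2)) := by
    have := uu_cont
    fun_prop
  rw [intervalIntegral.integral_eq_sub_of_hasDerivAt hd (hc.intervalIntegrable _ _), sinh_L3,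
    cosh_L3]
  simp
  linarith [L3_lt]

lemma int3 : 0 ≤ ∫ x in (0 : ℝ)..L3, ((9 / 25 : ℝ) ^ 3 - uu x ^ 3) := by
  have hd : ∀ x ∈ uIcc (0 : ℝ) L3, HasDerivAt (fun x => (9 / 25 : ℝ) ^ 3 * x -
      (Real.sinh x + Real.sinh x ^ 3 / 3 - 3 / 2 * (x + Real.sinh x * Real.cosh x)
        + 3 * Real.sinh x - x))
      ((9 / 25 : ℝ) ^ 3 - uu x ^ 3) x := by
    intro x _
    have := ((hasDerivAt_id' x).const_mul ((9 / 25 : ℝ) ^ 3)).fun_sub
      (((((Real.hasDerivAt_sinh x).fun_add (((Real.hasDerivAt_sinh x).fun_pow 3).div_const 3)).fun_sub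
      (((hasDerivAt_id' x).fun_add
        ((Real.hasDerivAt_sinh x).fun_mul (Real.hasDerivAt_cosh x))).const_mul (3 / 2 : ℝ))).fun_add
      ((Real.hasDerivAt_sinh x).const_mul 3)).fun_sub (hasDerivAt_id' x))
    refine this.congr_deriv ?_
    unfold uu
    have hsq : Real.sinh x ^ 2 = Real.cosh x ^ 2 - 1 := by rw [Real.cosh_sq]; ring
    push_cast
    linear_combination (3 / 2 - Real.cosh x) * hsq
  have hc : Continuous (fun x => ((9 / 25 : ℝ) ^ 3 - uu x ^ 3)) := by
    have := uu_cont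
    fun_prop
  rw [intervalIntegral.integral_eq_sub_of_hasDerivAt hd (hc.intervalIntegrable _ _), sinh_L3,
    cosh_L3]
  simp
  linarith [L3_gt]

lemma b1_le {t : ℝ} (ht : 0 < t) : LL ks 1 t ≤ 6 / 25 * LL ks 0 t := by
  have := LL_bound 1 (6 / 25) (by norm_num) (by norm_num) int1 ht
  simpa using this

lemma b2_le {t : ℝ} (ht : 0 < t) : LL ks 2 t ≤ 9 / 100 * LL ks 0 t := by
  have := LL_bound 2 (3 / 10) (by norm_num) (by norm_num) int2 ht
  norm_num at this
  exact this

lemma b3_le {t : ℝ} (ht : 0 < t) : LL ks 3 t ≤ 729 / 15625 * LL ks 0 t := by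
  have := LL_bound 3 (9 / 25) (by norm_num) (by norm_num) int3 ht
  norm_num at this
  exact this

end Pool.Agent.R963.TS
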