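import Mathlib

/-!
# Definitions for MP_f86038_pr (1/2-Tsallis FTRL by i.i.d. perturbations)
-/

set_option autoImplicit false

open MeasureTheory

namespace Pool.Agent.R963.TS

/-- The map `c(x) = (1-x)^{-1/2} - x^{-1/2}` of the problem. -/
noncomputable def cc (x : ℝ) : ℝ := (1 - x) ^ (-(1 / 2) : ℝ) - x ^ (-(1 / 2) : ℝ)

/-- The law of `c(U)`, `U` uniform on `(0,1)`. -/
noncomputable def Dbar : Measure ℝ := (volume.restrict (Set.Ioo (0 : ℝ) 1)).map cc

/-- `kap w = Re ((1+iw)^{-3/2} (3+iw)^{-1/2})`, written with real functions. -/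
noncomputable def kap (w : ℝ) : ℝ :=
  (1 + w ^ 2) ^ (-(3 / 4) : ℝ) * (9 + w ^ 2) ^ (-(1 / 4) : ℝ) *
    Real.cos (3 / 2 * Real.arctan w + 1 / 2 * Real.arctan (w / 3))

end Pool.Agent.R963.TS
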