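import Mathlib
import Pool.Agent.H506R3.Mag.Boch2
import Pool.Agent.R963.TS.Defs

set_option autoImplicit false

/-!
# Characteristic function of the Tsallis law `Dbar` (task TS-C of MP_f86038_pr)
-/

namespace Pool.Agent.R963.TS

open MeasureTheory Filter Topology Set
open Pool.Agent.H506R3.Mag
open scoped FourierTransform RealInnerProductSpace NNReal

/-- the density of `Dbar` -/
noncomputable def cfF (z : ℝ) : ℝ :=
  2 * (Real.sqrt (1 + z ^ 2))⁻¹ * ((1 + Real.sqrt (1 + z ^ 2)) ^ (-(3 / 2) : ℝ) *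
    (3 + Real.sqrt (1 + z ^ 2)) ^ (-(1 / 2) : ℝ))

lemma cf_deriv {p : ℝ} (h0 : 0 < p) (h1 : p < 1) :
    HasDerivAt cc (1 / 2 * ((1 - p) ^ (-(3 / 2) : ℝ) + p ^ (-(3 / 2) : ℝ))) p := by
  have a1 : HasDerivAt (fun x : ℝ => (1 - x) ^ (-(1 / 2) : ℝ))
      ((-1) * (-(1 / 2) : ℝ) * (1 - p) ^ ((-(1 / 2) : ℝ) - 1)) p := by
    exact ((hasDerivAt_id p).const_sub 1).rpow_const (Or.inl (by simp; linarith))
  have a2 : HasDerivAt (fun x : ℝ => x ^ (-(1 / 2) : ℝ)) ((-(1 / 2) : ℝ) * p ^ ((-(1 / 2) : ℝ) - 1)) p :=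
    Real.hasDerivAt_rpow_const (Or.inl h0.ne')
  have := a1.sub a2
  refine this.congr_deriv ?_
  rw [show (-(1 / 2) : ℝ) - 1 = -(3 / 2) by norm_num]
  ring

lemma cf_anti_pow {x : ℝ} (hx : 0 < x) : x ^ (-(3 / 2) : ℝ) = (x ^ (-(1 / 2) : ℝ)) ^ 3 := by
  rw [← Real.rpow_natCast, ← Real.rpow_mul hx.le]
  norm_num

lemma cf_sq {x : ℝ} (hx : 0 < x) : (x ^ (-(1 / 2) : ℝ)) ^ 2 = 1 / x := by
  rw [← Real.rpow_natCast, ← Real.rpow_mul hx.le]
  norm_num
  rw [Real.rpow_neg_one]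

lemma cf_key {p : ℝ} (h0 : 0 < p) (h1 : p < 1) :
    1 / 2 * ((1 - p) ^ (-(3 / 2) : ℝ) + p ^ (-(3 / 2) : ℝ)) * cfF (cc p) = 1 := by
  have h1' : 0 < 1 - p := by linarith
  rw [cf_anti_pow h0, cf_anti_pow h1']
  unfold cfF cc
  set a := p ^ (-(1 / 2) : ℝ) with ha
  set b := (1 - p) ^ (-(1 / 2) : ℝ) with hb
  have ha0 : 0 < a := Real.rpow_pos_of_pos h0 _
  have hb0 : 0 < b := Real.rpow_pos_of_pos h1' _
  have ha2 : a ^ 2 = 1 / p := cf_sq h0
  have hb2 : b ^ 2 = 1 / (1 - p) := cf_sq h1'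
  have hsum : a ^ 2 + b ^ 2 = (a * b) ^ 2 := by
    rw [mul_pow, ha2, hb2]
    field_simp
    ring
  set s := a * b with hs
  have hs0 : 0 < s := mul_pos ha0 hb0
  have hs2 : 2 ≤ s := by
    have h3 : 0 ≤ (a - b) ^ 2 := sq_nonneg _
    have h4 : s * 2 ≤ s * s := by
      have : (a - b) ^ 2 = a ^ 2 + b ^ 2 - 2 * s := by rw [hs]; ring
      nlinarith
    exact le_of_mul_le_mul_left h4 hs0
  have hc : 1 + (b - a) ^ 2 = (s - 1) ^ 2 := by
    have : (b - a) ^ 2 = a ^ 2 + b ^ 2 - 2 * s := by rw [hs]; ring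
    rw [this, hsum]; ring
  rw [hc, Real.sqrt_sq (by linarith)]
  have e1 : 1 + (s - 1) = s := by ring
  have e2 : 3 + (s - 1) = s + 2 := by ring
  rw [e1, e2]
  have hr1 : 0 < Real.sqrt s := Real.sqrt_pos.2 hs0
  have hr2 : 0 < Real.sqrt (s + 2) := Real.sqrt_pos.2 (by linarith)
  have f1 : s ^ (-(3 / 2) : ℝ) = (Real.sqrt s ^ 3)⁻¹ := by
    rw [Real.sqrt_eq_rpow, ← Real.rpow_natCast, ← Real.rpow_mul hs0.le, ← Real.rpow_neg hs0.le]
    norm_num
  have f2 : (s + 2) ^ (-(1 / 2) : ℝ) = (Real.sqrt (s + 2))⁻¹ := by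
    rw [Real.sqrt_eq_rpow, ← Real.rpow_neg (by linarith)]
  rw [f1, f2]
  have hab : a + b = Real.sqrt s * Real.sqrt (s + 2) := by
    have h5 : (a + b) ^ 2 = s * (s + 2) := by
      have : (a + b) ^ 2 = a ^ 2 + b ^ 2 + 2 * s := by rw [hs]; ring
      rw [this, hsum]; ring
    rw [← Real.sqrt_mul hs0.le, ← h5, Real.sqrt_sq (by positivity)]
  have hcube : b ^ 3 + a ^ 3 = (a + b) * (s ^ 2 - s) := by
    have : (a + b) * (s ^ 2 - s) = (a + b) * (a ^ 2 + b ^ 2 - a * b) := by rw [hsum]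
    rw [this]; ring
  rw [hcube, hab]
  have hss : s = Real.sqrt s ^ 2 := (Real.sq_sqrt hs0.le).symm
  have hs1 : s - 1 ≠ 0 := by linarith
  have e3 : s ^ 2 - s = Real.sqrt s ^ 2 * (s - 1) := by rw [← hss]; ring
  rw [e3]
  field_simp

lemma cc_strictMono : StrictMonoOn cc (Ioo (0:ℝ) 1) := by
  intro x hx y hy hxy
  unfold cc
  have h1 : (1 - x) ^ (-(1 / 2) : ℝ) < (1 - y) ^ (-(1 / 2) : ℝ) :=
    Real.rpow_lt_rpow_of_neg (by linarith [hy.2]) (by linarith) (by norm_num)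
  have h2 : y ^ (-(1 / 2) : ℝ) < x ^ (-(1 / 2) : ℝ) :=
    Real.rpow_lt_rpow_of_neg hx.1 hxy (by norm_num)
  linarith

lemma cc_anti (x : ℝ) : cc (1 - x) = -cc x := by
  unfold cc
  rw [show 1 - (1 - x) = x by ring]
  ring

lemma cc_small (m : ℝ) (hm : 0 ≤ m) : ∃ p : ℝ, 0 < p ∧ p ≤ 1 / 2 ∧ cc p ≤ -m := by
  refine ⟨((2 + m) ^ 2)⁻¹, by positivity, ?_, ?_⟩
  · rw [one_div]
    apply inv_anti₀ (by norm_num)
    nlinarith
  · unfold cc
    have h1 : (((2 + m) ^ 2)⁻¹ : ℝ) ^ (-(1 / 2) : ℝ) = 2 + m := by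
      rw [← Real.rpow_neg_one, ← Real.rpow_natCast, ← Real.rpow_mul (by positivity),
        ← Real.rpow_mul (by positivity)]
      norm_num
    have hp : (((2 + m) ^ 2)⁻¹ : ℝ) ≤ 1 / 4 := by
      rw [one_div]
      apply inv_anti₀ (by norm_num)
      nlinarith
    have h2 : (1 - ((2 + m) ^ 2)⁻¹ : ℝ) ^ (-(1 / 2) : ℝ) ≤ (1 / 4 : ℝ) ^ (-(1 / 2) : ℝ) :=
      Real.rpow_le_rpow_of_nonpos (by norm_num) (by linarith) (by norm_num)
    have h3 : (1 / 4 : ℝ) ^ (-(1 / 2) : ℝ) = 2 := by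
      rw [show (1 / 4 : ℝ) = 2 ^ (-2 : ℝ) by rw [Real.rpow_neg (by norm_num)]; norm_num,
        ← Real.rpow_mul (by norm_num)]
      norm_num
    rw [h1]
    linarith

lemma cc_image : cc '' Ioo (0:ℝ) 1 = univ := by
  rw [eq_univ_iff_forall]
  intro z
  obtain ⟨p, hp0, hp1, hp⟩ := cc_small |z| (abs_nonneg z)
  have hcont : ContinuousOn cc (Icc p (1 - p)) := by
    intro x hx
    exact (cf_deriv (by linarith [hx.1]) (by linarith [hx.2])).continuousAt.continuousWithinAt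
  have h := intermediate_value_Icc (by linarith : p ≤ 1 - p) hcont
  have hz : z ∈ Icc (cc p) (cc (1 - p)) := by
    rw [cc_anti]
    exact ⟨hp.trans (neg_abs_le z), (le_abs_self z).trans (by linarith)⟩
  obtain ⟨x, hx, hxz⟩ := h hz
  exact ⟨x, ⟨by linarith [hx.1], by linarith [hx.2]⟩, hxz⟩

lemma cc_meas : Measurable cc := by
  unfold cc
  fun_prop

lemma charFun_eq_cfF (t : ℝ) :
    charFun Dbar t = ∫ z : ℝ, (cfF z : ℂ) * Complex.exp (t * z * Complex.I) := by
  rw [charFun_apply_real, Dbar, integral_map cc_meas.aemeasurable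
    (by fun_prop)]
  have h := integral_image_eq_integral_abs_deriv_smul (s := Ioo (0:ℝ) 1) measurableSet_Ioo
    (f := cc) (f' := fun p => 1 / 2 * ((1 - p) ^ (-(3 / 2) : ℝ) + p ^ (-(3 / 2) : ℝ)))
    (fun x hx => (cf_deriv hx.1 hx.2).hasDerivWithinAt) cc_strictMono.injOn
    (fun z => (cfF z : ℂ) * Complex.exp (t * z * Complex.I))
  rw [cc_image, Measure.restrict_univ] at h
  rw [h]
  refine setIntegral_congr_fun measurableSet_Ioo fun p hp => ?_
  have hp' : 0 < 1 - p := by linarith [hp.2]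
  have hp0 : 0 < p := hp.1
  have hpos : 0 < 1 / 2 * ((1 - p) ^ (-(3 / 2) : ℝ) + p ^ (-(3 / 2) : ℝ)) := by
    positivity
  have hk := cf_key hp.1 hp.2
  have hk2 : ((1 / 2 * ((1 - p) ^ (-(3 / 2) : ℝ) + p ^ (-(3 / 2) : ℝ)) : ℝ) : ℂ) *
      ((cfF (cc p) : ℝ) : ℂ) = 1 := by
    rw [← Complex.ofReal_mul, hk, Complex.ofReal_one]
  rw [abs_of_pos hpos, Complex.real_smul, ← mul_assoc, hk2, one_mul]

/-- the kernel -/
noncomputable def cfH (x : ℝ) : ℝ := kap (Real.sinh x)

noncomputable def cfG (t : ℝ) : ℝ := 2 * ∫ x : ℝ, Real.exp (-(|t| * Real.cosh x)) * cfH x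

lemma cosh_inv_le (x : ℝ) : (Real.cosh x)⁻¹ ≤ 4 * (1 + x ^ 2)⁻¹ := by
  have h1 : (1 + x ^ 2) / 4 ≤ Real.cosh x := by
    rw [← Real.cosh_abs, Real.cosh_eq]
    have h2 := Real.quadratic_le_exp_of_nonneg (abs_nonneg x)
    have h3 := Real.exp_pos (-|x|)
    rw [sq_abs] at h2
    have := abs_nonneg x
    nlinarith [sq_nonneg x]
  calc (Real.cosh x)⁻¹ ≤ ((1 + x ^ 2) / 4)⁻¹ := inv_anti₀ (by positivity) h1
    _ = _ := by rw [inv_div, div_eq_mul_inv]

lemma kap_cont : Continuous kap := by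
  unfold kap
  have h1 : Continuous fun w : ℝ => (1 + w ^ 2) ^ (-(3 / 4) : ℝ) :=
    (by fun_prop : Continuous fun w : ℝ => 1 + w ^ 2).rpow_const
      (fun x => Or.inl (by positivity))
  have h2 : Continuous fun w : ℝ => (9 + w ^ 2) ^ (-(1 / 4) : ℝ) :=
    (by fun_prop : Continuous fun w : ℝ => 9 + w ^ 2).rpow_const
      (fun x => Or.inl (by positivity))
  have h3 : Continuous fun w : ℝ => Real.cos (3 / 2 * Real.arctan w + 1 / 2 * Real.arctan (w / 3)) :=
    Real.continuous_cos.comp ((Real.continuous_arctan.const_mul _).add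
      ((Real.continuous_arctan.comp (continuous_id.div_const 3)).const_mul _))
  exact (h1.mul h2).mul h3

lemma cfH_cont : Continuous cfH := kap_cont.comp Real.continuous_sinh

lemma kap_le (w : ℝ) : |kap w| ≤ (1 + w ^ 2) ^ (-(3 / 4) : ℝ) := by
  unfold kap
  rw [abs_mul, abs_mul, abs_of_pos (Real.rpow_pos_of_pos (by positivity) _),
    abs_of_pos (Real.rpow_pos_of_pos (by positivity) _)]
  have h1 : (9 + w ^ 2 : ℝ) ^ (-(1 / 4) : ℝ) ≤ 1 :=
    Real.rpow_le_one_of_one_le_of_nonpos (by nlinarith [sq_nonneg w]) (by norm_num)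
  have h2 := Real.abs_cos_le_one (3 / 2 * Real.arctan w + 1 / 2 * Real.arctan (w / 3))
  have h3 : 0 < (1 + w ^ 2 : ℝ) ^ (-(3 / 4) : ℝ) := Real.rpow_pos_of_pos (by positivity) _
  have h4 : 0 < (9 + w ^ 2 : ℝ) ^ (-(1 / 4) : ℝ) := Real.rpow_pos_of_pos (by positivity) _
  calc _ ≤ (1 + w ^ 2 : ℝ) ^ (-(3 / 4) : ℝ) * 1 * 1 := by gcongr
    _ = _ := by ring

lemma cfH_le (x : ℝ) : |cfH x| ≤ (Real.cosh x)⁻¹ := by
  refine (kap_le _).trans ?_
  rw [← Real.cosh_sq']
  have h1 := Real.one_le_cosh x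
  have h0 : 0 < Real.cosh x := Real.cosh_pos x
  rw [← Real.rpow_natCast, ← Real.rpow_mul h0.le, ← Real.rpow_neg_one]
  exact Real.rpow_le_rpow_of_exponent_le h1 (by norm_num)

lemma inv_cosh_int : Integrable (fun x : ℝ => (Real.cosh x)⁻¹) := by
  refine (integrable_inv_one_add_sq.const_mul 4).mono
    (Real.continuous_cosh.inv₀ fun x => (Real.cosh_pos x).ne').aestronglyMeasurable
    (Filter.Eventually.of_forall fun x => ?_)
  rw [Real.norm_eq_abs, Real.norm_eq_abs, abs_of_pos (inv_pos.2 (Real.cosh_pos x)),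
    abs_of_pos (by positivity)]
  exact cosh_inv_le x

lemma cfH_int : Integrable cfH := by
  refine inv_cosh_int.mono cfH_cont.aestronglyMeasurable (Filter.Eventually.of_forall fun x => ?_)
  rw [Real.norm_eq_abs, Real.norm_eq_abs, abs_of_pos (inv_pos.2 (Real.cosh_pos x))]
  exact cfH_le x

lemma cfG_cont : Continuous cfG := by
  unfold cfG
  refine Continuous.const_mul ?_ 2 |>.congr fun _ => rfl
  refine continuous_of_dominated (bound := fun x => |cfH x|) (fun t => ?_) (fun t => ?_)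
    cfH_int.abs (Filter.Eventually.of_forall fun x => by fun_prop)
  · exact ((by fun_prop : Continuous fun x => Real.exp (-(|t| * Real.cosh x))).mul
      cfH_cont).aestronglyMeasurable
  · refine Filter.Eventually.of_forall fun x => ?_
    rw [norm_mul, Real.norm_eq_abs, Real.norm_eq_abs, Real.abs_exp]
    refine mul_le_of_le_one_left (abs_nonneg _) (Real.exp_le_one_iff.2 ?_)
    have := mul_nonneg (abs_nonneg t) (Real.cosh_pos x).le
    linarith

lemma int_comp_abs {f : ℝ → ℝ} (hf : IntegrableOn (fun x => f |x|) (Ioi 0)) :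
    Integrable (fun x => f |x|) := by
  have int_Iic : IntegrableOn (fun x ↦ f |x|) (Iic 0) := by
    rw [← Measure.map_neg_eq_self (volume : Measure ℝ)]
    let m : MeasurableEmbedding fun x : ℝ => -x := (Homeomorph.neg ℝ).measurableEmbedding
    rw [m.integrableOn_map_iff]
    simp_rw [Function.comp_def, abs_neg, neg_preimage, neg_Iic, neg_zero]
    exact Iff.mpr integrableOn_Ici_iff_integrableOn_Ioi hf
  rw [← integrableOn_univ, ← Iic_union_Ioi (a := (0:ℝ))]
  exact int_Iic.union hf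

lemma exp_abs_int {y : ℝ} (hy : 0 < y) (s : ℝ) :
    Integrable (fun t : ℝ => Real.exp (-(|t| * y)) * Real.cos (s * t)) ∧
    ∫ t : ℝ, Real.exp (-(|t| * y)) * Real.cos (s * t) = 2 * y / (y ^ 2 + s ^ 2) := by
  have hre : ((-y + s * Complex.I : ℂ)).re < 0 := by simpa using hy
  have h1 := integral_exp_mul_complex_Ioi hre 0
  have h2 := integrableOn_exp_mul_complex_Ioi hre 0
  have e : ∀ t : ℝ, (Complex.exp ((-y + s * Complex.I) * t)).re =
      Real.exp (-(t * y)) * Real.cos (s * t) := by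
    intro t
    rw [Complex.exp_re]
    congr 2
    · simp; ring
    · simp
  have h3 : ∫ t in Ioi (0:ℝ), Real.exp (-(t * y)) * Real.cos (s * t) = y / (y ^ 2 + s ^ 2) := by
    have h4 : ∫ t in Ioi (0:ℝ), (Complex.exp ((-y + s * Complex.I) * t)).re =
        (∫ t in Ioi (0:ℝ), Complex.exp ((-y + s * Complex.I) * t)).re := integral_re h2
    simp_rw [e] at h4
    rw [h4, h1]
    have h5 : (-y + s * Complex.I : ℂ) ≠ 0 := by
      intro h
      have := congrArg Complex.re h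
      simp at this
      exact hy.ne' this
    have h6 : (-Complex.exp ((-y + s * Complex.I) * ((0:ℝ) : ℂ)) / (-y + s * Complex.I) : ℂ) =
        ((y / (y ^ 2 + s ^ 2) : ℝ) : ℂ) + ((s / (y ^ 2 + s ^ 2) : ℝ) : ℂ) * Complex.I := by
      have h7 : ((y : ℂ) ^ 2 + (s : ℂ) ^ 2) ≠ 0 := by
        have : (y ^ 2 + s ^ 2 : ℝ) ≠ 0 := by positivity
        exact_mod_cast this
      rw [div_eq_iff h5]
      push_cast
      field_simp
      simp only [mul_zero, Complex.exp_zero, Complex.ofReal_zero]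
      ring_nf
      rw [Complex.I_sq]
      ring
    rw [h6, Complex.add_re, Complex.ofReal_re, Complex.re_ofReal_mul, Complex.I_re, mul_zero,
      add_zero]
  have h8 : IntegrableOn (fun t : ℝ => Real.exp (-(|t| * y)) * Real.cos (s * |t|)) (Ioi 0) := by
    refine IntegrableOn.congr_fun (h2.re) (fun t ht => ?_) measurableSet_Ioi
    have ht' : 0 < t := ht
    simp only [RCLike.re_to_complex]
    rw [e, abs_of_pos ht']
  have hcos : ∀ t : ℝ, Real.cos (s * |t|) = Real.cos (s * t) := by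
    intro t
    rcases abs_choice t with h | h
    · rw [h]
    · rw [h, mul_neg, Real.cos_neg]
  constructor
  · have h9 := int_comp_abs (f := fun u : ℝ => Real.exp (-(u * y)) * Real.cos (s * u)) h8
    refine h9.congr (Filter.Eventually.of_forall fun t => ?_)
    simp only [hcos]
  · have h10 := integral_comp_abs (f := fun u : ℝ => Real.exp (-(u * y)) * Real.cos (s * u))
    rw [h3] at h10
    rw [show 2 * y / (y ^ 2 + s ^ 2) = 2 * (y / (y ^ 2 + s ^ 2)) by ring, ← h10]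
    refine integral_congr_ae (Filter.Eventually.of_forall fun t => ?_)
    simp only [hcos]

lemma cfK_int : Integrable (Function.uncurry fun (t x : ℝ) =>
    Real.exp (-(|t| * Real.cosh x)) * cfH x) (volume.prod volume) := by
  have hc : Continuous (Function.uncurry fun (t x : ℝ) =>
      Real.exp (-(|t| * Real.cosh x)) * cfH x) := by
    have h1 : Continuous (fun p : ℝ × ℝ => Real.exp (-(|p.1| * Real.cosh p.2))) := by fun_prop
    exact h1.mul (cfH_cont.comp continuous_snd)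
  rw [integrable_prod_iff' hc.aestronglyMeasurable]
  have hval : ∀ x : ℝ, Integrable (fun t : ℝ => Real.exp (-(|t| * Real.cosh x))) ∧
      ∫ t : ℝ, Real.exp (-(|t| * Real.cosh x)) = 2 * (Real.cosh x)⁻¹ := by
    intro x
    have h := exp_abs_int (Real.cosh_pos x) 0
    simp only [zero_mul, Real.cos_zero, mul_one] at h
    refine ⟨h.1, h.2.trans ?_⟩
    have := (Real.cosh_pos x).ne'
    field_simp
    ring
  constructor
  · exact Filter.Eventually.of_forall fun x => (hval x).1.mul_const (cfH x)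
  · have e : (fun x : ℝ => ∫ t : ℝ, ‖(Function.uncurry fun (t x : ℝ) =>
        Real.exp (-(|t| * Real.cosh x)) * cfH x) (t, x)‖) =
        fun x => 2 * (Real.cosh x)⁻¹ * |cfH x| := by
      funext x
      simp only [Function.uncurry_apply_pair, norm_mul, Real.norm_eq_abs, Real.abs_exp]
      rw [integral_mul_const, (hval x).2]
    rw [e]
    refine (cfH_int.abs.const_mul 2).mono ?_ (Filter.Eventually.of_forall fun x => ?_)
    · exact (((Real.continuous_cosh.inv₀ fun x => (Real.cosh_pos x).ne').const_mul 2).mul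
        cfH_cont.abs).aestronglyMeasurable
    · have h1 := Real.one_le_cosh x
      have h2 : (Real.cosh x)⁻¹ ≤ 1 := inv_le_one_of_one_le₀ h1
      have h3 : 0 < (Real.cosh x)⁻¹ := inv_pos.2 (Real.cosh_pos x)
      have h4 := abs_nonneg (cfH x)
      rw [Real.norm_eq_abs, Real.norm_eq_abs, abs_of_nonneg
        (mul_nonneg (mul_nonneg zero_le_two h3.le) h4), abs_of_nonneg (mul_nonneg zero_le_two h4)]
      nlinarith

lemma cfG_int : Integrable cfG := by
  have := cfK_int.integral_prod_left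
  exact this.const_mul 2

lemma cfG_even (t : ℝ) : cfG (-t) = cfG t := by simp [cfG]

lemma cfG_cos (s : ℝ) : ∫ t : ℝ, cfG t * Real.cos (s * t) =
    4 * ∫ w : ℝ, kap w / (1 + s ^ 2 + w ^ 2) := by
  have h1 : ∀ t : ℝ, cfG t * Real.cos (s * t) =
      2 * ∫ x : ℝ, Real.exp (-(|t| * Real.cosh x)) * cfH x * Real.cos (s * t) := by
    intro t
    rw [integral_mul_const, cfG]
    ring
  simp_rw [h1]
  rw [integral_const_mul]
  have hint : Integrable (Function.uncurry fun (t x : ℝ) =>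
      Real.exp (-(|t| * Real.cosh x)) * cfH x * Real.cos (s * t)) (volume.prod volume) := by
    refine cfK_int.mono ?_ (Filter.Eventually.of_forall fun p => ?_)
    · have hc : Continuous (Function.uncurry fun (t x : ℝ) =>
          Real.exp (-(|t| * Real.cosh x)) * cfH x * Real.cos (s * t)) := by
        have h1 : Continuous (fun p : ℝ × ℝ => Real.exp (-(|p.1| * Real.cosh p.2))) := by fun_prop
        have h2 : Continuous (fun p : ℝ × ℝ => Real.cos (s * p.1)) := by fun_prop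
        exact (h1.mul (cfH_cont.comp continuous_snd)).mul h2
      exact hc.aestronglyMeasurable
    · simp only [Function.uncurry, norm_mul]
      exact mul_le_of_le_one_right (by positivity) (Real.abs_cos_le_one _)
  rw [integral_integral_swap hint]
  have h2 : ∀ x : ℝ, ∫ t : ℝ, Real.exp (-(|t| * Real.cosh x)) * cfH x * Real.cos (s * t) =
      2 * (|Real.cosh x| • (kap (Real.sinh x) / (1 + s ^ 2 + Real.sinh x ^ 2))) := by
    intro x
    have h := (exp_abs_int (Real.cosh_pos x) s).2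
    have e : ∀ t : ℝ, Real.exp (-(|t| * Real.cosh x)) * cfH x * Real.cos (s * t) =
        Real.exp (-(|t| * Real.cosh x)) * Real.cos (s * t) * cfH x := fun t => by ring
    simp_rw [e]
    rw [integral_mul_const, h, abs_of_pos (Real.cosh_pos x), cfH, smul_eq_mul]
    have h5 : Real.cosh x ^ 2 + s ^ 2 = 1 + s ^ 2 + Real.sinh x ^ 2 := by
      rw [Real.cosh_sq]; ring
    rw [h5]
    ring
  simp_rw [h2]
  rw [integral_const_mul]
  have h3 := integral_image_eq_integral_abs_deriv_smul (s := univ) MeasurableSet.univ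
    (f := Real.sinh) (f' := Real.cosh) (fun x _ => (Real.hasDerivAt_sinh x).hasDerivWithinAt)
    Real.sinh_injective.injOn (fun w => kap w / (1 + s ^ 2 + w ^ 2))
  rw [image_univ, Real.sinh_surjective.range_eq, Measure.restrict_univ] at h3
  rw [h3]
  ring

lemma cfF_cont : Continuous cfF := by
  unfold cfF
  have h0 : Continuous fun z : ℝ => Real.sqrt (1 + z ^ 2) := by fun_prop
  have hp : ∀ z : ℝ, 0 < Real.sqrt (1 + z ^ 2) := fun z => Real.sqrt_pos.2 (by positivity)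
  refine ((h0.inv₀ fun z => (hp z).ne').const_mul 2).mul ?_
  refine Continuous.mul ?_ ?_
  · exact (continuous_const.add h0).rpow_const fun z => Or.inl (by
      have := hp z
      simp only [Pi.add_apply]
      linarith)
  · exact (continuous_const.add h0).rpow_const fun z => Or.inl (by
      have := hp z
      simp only [Pi.add_apply]
      linarith)

lemma cfF_pos (z : ℝ) : 0 < cfF z := by
  unfold cfF
  have hp : 0 < Real.sqrt (1 + z ^ 2) := Real.sqrt_pos.2 (by positivity)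
  positivity

lemma cfF_le (z : ℝ) : cfF z ≤ 2 * (1 + z ^ 2)⁻¹ := by
  unfold cfF
  set v := Real.sqrt (1 + z ^ 2) with hv
  have hp : 0 < v := Real.sqrt_pos.2 (by positivity)
  have hv2 : v ^ 2 = 1 + z ^ 2 := Real.sq_sqrt (by positivity)
  rw [← hv2]
  have h1 : (1 + v) ^ (-(3 / 2) : ℝ) ≤ v⁻¹ := by
    calc (1 + v) ^ (-(3 / 2) : ℝ) ≤ (1 + v) ^ (-1 : ℝ) :=
          Real.rpow_le_rpow_of_exponent_le (by linarith) (by norm_num)
      _ = (1 + v)⁻¹ := Real.rpow_neg_one _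
      _ ≤ v⁻¹ := inv_anti₀ hp (by linarith)
  have h2 : (3 + v) ^ (-(1 / 2) : ℝ) ≤ 1 :=
    Real.rpow_le_one_of_one_le_of_nonpos (by linarith) (by norm_num)
  have h3 : 0 < (3 + v) ^ (-(1 / 2) : ℝ) := Real.rpow_pos_of_pos (by linarith) _
  calc 2 * v⁻¹ * ((1 + v) ^ (-(3 / 2) : ℝ) * (3 + v) ^ (-(1 / 2) : ℝ))
      ≤ 2 * v⁻¹ * (v⁻¹ * 1) := by gcongr
    _ = 2 * (v ^ 2)⁻¹ := by rw [sq, mul_inv]; ring

lemma cfF_int : Integrable cfF := by
  refine (integrable_inv_one_add_sq.const_mul 2).mono cfF_cont.aestronglyMeasurable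
    (Filter.Eventually.of_forall fun x => ?_)
  rw [Real.norm_eq_abs, Real.norm_eq_abs, abs_of_pos (cfF_pos x), abs_of_pos (by positivity)]
  exact cfF_le x

theorem charFun_Dbar (hS : ∀ v : ℝ, 0 < v → ∫ w : ℝ, kap w / (v ^ 2 + w ^ 2) =
    Real.pi / v * ((1 + v) ^ (-(3 / 2) : ℝ) * (3 + v) ^ (-(1 / 2) : ℝ))) (t : ℝ) :
    charFun Dbar t =
      ((2 * ∫ x : ℝ, Real.exp (-(|t| * Real.cosh x)) * kap (Real.sinh x) : ℝ) : ℂ) := by
  have hct : ∀ ξ : ℝ, ct cfG ξ = 2 * Real.pi * cfF (2 * Real.pi * ξ) := by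
    intro ξ
    set s := 2 * Real.pi * ξ with hs
    have h1 : ct cfG ξ = ∫ t : ℝ, cfG t * Real.cos (s * t) := by
      unfold ct
      refine integral_congr_ae (Filter.Eventually.of_forall fun x => ?_)
      simp only [RCLike.inner_apply, conj_trivial, hs]
      congr 2
      ring
    rw [h1, cfG_cos]
    have hv0 : 0 < Real.sqrt (1 + s ^ 2) := Real.sqrt_pos.2 (by positivity)
    have h2 := hS _ hv0
    rw [Real.sq_sqrt (by positivity)] at h2
    rw [h2, cfF]
    ring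
  have hF : 𝓕 (fun x => (cfG x : ℂ)) = fun ξ => (ct cfG ξ : ℂ) :=
    funext (fourier_eq_ct cfG_cont cfG_int cfG_even)
  have hci : Integrable (ct cfG) := by
    have : ct cfG = fun ξ => 2 * Real.pi * cfF (2 * Real.pi * ξ) := funext hct
    rw [this]
    exact (cfF_int.comp_mul_left' (by positivity)).const_mul _
  have hinv : 𝓕⁻ (fun ξ => (ct cfG ξ : ℂ)) = fun x => (cfG x : ℂ) := by
    rw [← hF]
    refine Continuous.fourierInv_fourier_eq ?_ cfG_int.ofReal ?_
    · exact Complex.continuous_ofReal.comp cfG_cont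
    · rw [hF]
      exact hci.ofReal
  rw [charFun_eq_cfF]
  change _ = ((cfG t : ℝ) : ℂ)
  have h1 := congrFun hinv t
  rw [Real.fourierInv_eq'] at h1
  rw [← h1]
  have h2 : ∀ ξ : ℝ, Complex.exp (↑(2 * Real.pi * ⟪ξ, t⟫) * Complex.I) • ((ct cfG ξ : ℝ) : ℂ) =
      ((2 * Real.pi : ℝ) : ℂ) * (fun z : ℝ => (cfF z : ℂ) * Complex.exp (t * z * Complex.I))
        (2 * Real.pi * ξ) := by
    intro ξ
    rw [hct ξ]
    simp only [RCLike.inner_apply, conj_trivial, smul_eq_mul]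
    push_cast
    rw [show ((2 : ℂ) * Real.pi * (t * ξ) * Complex.I) = t * (2 * Real.pi * ξ) * Complex.I by ring]
    ring
  rw [integral_congr_ae (Filter.Eventually.of_forall h2), integral_const_mul,
    Measure.integral_comp_mul_left (fun z : ℝ => (cfF z : ℂ) * Complex.exp (t * z * Complex.I))]
  have hpi : (0:ℝ) < 2 * Real.pi := by positivity
  rw [abs_of_pos (inv_pos.2 hpi), Complex.real_smul, ← mul_assoc, ← Complex.ofReal_mul,
    mul_inv_cancel₀ hpi.ne', Complex.ofReal_one, one_mul]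

end Pool.Agent.R963.TS
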