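import Mathlib

/-!
# A Pólya type criterion

If `φ' = -t η` on `(0,∞)` with `η` three times monotone, then `φ(|t|)` is a mixture of the
functions `(1-|t|/r)_+^3 (1+3|t|/r)`.
-/

set_option autoImplicit false

open MeasureTheory Filter Topology Set
open scoped ENNReal

namespace Pool.Agent.R963.TS

/-- The function `(1-|x|)_+^3 (1+3|x|)`. -/
noncomputable def Wd (x : ℝ) : ℝ := (max (1 - |x|) 0) ^ 3 * (1 + 3 * |x|)

structure Cd (φ η η1 η2 η3 : ℝ → ℝ) : Prop where
  φ0 : φ 0 = 1
  φc : ContinuousWithinAt φ (Ici 0) 0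
  hφ : ∀ t, 0 < t → HasDerivAt φ (-(t * η t)) t
  h1 : ∀ t, 0 < t → HasDerivAt η (η1 t) t
  h2 : ∀ t, 0 < t → HasDerivAt η1 (η2 t) t
  h3 : ∀ t, 0 < t → HasDerivAt η2 (η3 t) t
  s0 : ∀ t, 0 < t → 0 ≤ η t
  s1 : ∀ t, 0 < t → η1 t ≤ 0
  s2 : ∀ t, 0 < t → 0 ≤ η2 t
  s3 : ∀ t, 0 < t → η3 t ≤ 0
  lφ : Tendsto φ atTop (𝓝 0)
  lη : Tendsto (fun t => t ^ 2 * η t) atTop (𝓝 0)

lemma mono_aux {f f' : ℝ → ℝ} (hf : ∀ t, 0 < t → HasDerivAt f (f' t) t)
    (h0 : ∀ t, 0 < t → 0 ≤ f' t) : MonotoneOn f (Ioi 0) := by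
  refine monotoneOn_of_deriv_nonneg (convex_Ioi 0) ?_ ?_ ?_
  · exact fun t ht => (hf t ht).continuousAt.continuousWithinAt
  · rw [interior_Ioi]
    exact fun t ht => (hf t ht).differentiableAt.differentiableWithinAt
  · rw [interior_Ioi]
    intro t ht
    rw [(hf t ht).deriv]
    exact h0 t ht

lemma decay_aux {f f' : ℝ → ℝ} (hf : ∀ t, 0 < t → HasDerivAt f (f' t) t)
    (hm : MonotoneOn f' (Ioi 0)) (h0 : ∀ t, 0 < t → 0 ≤ f t) {t : ℝ} (ht : 0 < t) :
    -f' t * (t / 2) ≤ f (t / 2) := by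
  have h2 : 0 < t / 2 := by positivity
  have hlt : t / 2 < t := by linarith
  obtain ⟨c, hc, hce⟩ := exists_hasDerivAt_eq_slope f f' hlt
    (fun s hs => (hf s (h2.trans_le hs.1)).continuousAt.continuousWithinAt)
    (fun s hs => hf s (h2.trans hs.1))
  have hc0 : 0 < c := h2.trans hc.1
  have h3 : f' c ≤ f' t := hm hc0 ht hc.2.le
  have h4 : f' c * (t / 2) = f t - f (t / 2) := by
    rw [hce]
    have : t - t / 2 = t / 2 := by ring
    rw [this]
    field_simp
  have h5 := h0 t ht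
  nlinarith [mul_le_mul_of_nonneg_right h3 h2.le]

variable {φ η η1 η2 η3 : ℝ → ℝ}

lemma Cd.l1 (H : Cd φ η η1 η2 η3) : Tendsto (fun t => t ^ 3 * (-η1 t)) atTop (𝓝 0) := by
  have hm : MonotoneOn η1 (Ioi 0) := mono_aux H.h2 H.s2
  have h1 : Tendsto (fun t : ℝ => 8 * ((t / 2) ^ 2 * η (t / 2))) atTop (𝓝 0) := by
    have h2 : Tendsto (fun t : ℝ => t / 2) atTop atTop := tendsto_id.atTop_div_const (by norm_num)
    simpa using (H.lη.comp h2).const_mul 8
  refine squeeze_zero' ?_ ?_ h1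
  · filter_upwards [eventually_gt_atTop 0] with t ht
    exact mul_nonneg (by positivity) (by linarith [H.s1 t ht])
  · filter_upwards [eventually_gt_atTop 0] with t ht
    have h3 := decay_aux H.h1 hm H.s0 ht
    have h4 : 0 ≤ t ^ 2 := by positivity
    nlinarith [mul_le_mul_of_nonneg_left h3 h4]

lemma Cd.l2 (H : Cd φ η η1 η2 η3) : Tendsto (fun t => t ^ 4 * η2 t) atTop (𝓝 0) := by
  have hd : ∀ t, 0 < t → HasDerivAt (fun s => -η1 s) (-η2 t) t := fun t ht => (H.h2 t ht).neg
  have hd2 : ∀ t, 0 < t → HasDerivAt (fun s => -η2 s) (-η3 t) t := fun t ht => (H.h3 t ht).neg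
  have hm : MonotoneOn (fun s => -η2 s) (Ioi 0) :=
    mono_aux hd2 (fun t ht => by linarith [H.s3 t ht])
  have h1 : Tendsto (fun t : ℝ => 16 * ((t / 2) ^ 3 * (-η1 (t / 2)))) atTop (𝓝 0) := by
    have h2 : Tendsto (fun t : ℝ => t / 2) atTop atTop := tendsto_id.atTop_div_const (by norm_num)
    simpa using (H.l1.comp h2).const_mul 16
  refine squeeze_zero' ?_ ?_ h1
  · filter_upwards [eventually_gt_atTop 0] with t ht
    exact mul_nonneg (by positivity) (H.s2 t ht)
  · filter_upwards [eventually_gt_atTop 0] with t ht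
    have h3 := decay_aux hd hm (fun s hs => by linarith [H.s1 s hs]) ht
    have h4 : 0 ≤ t ^ 3 := by positivity
    nlinarith [mul_le_mul_of_nonneg_left h3 h4]

/-- the kernel `(r-t)^3 (r+3t)/24` -/
noncomputable def KK (t r : ℝ) : ℝ := (r - t) ^ 3 * (r + 3 * t) / 24

noncomputable def AA (φ η η1 η2 : ℝ → ℝ) (t r : ℝ) : ℝ :=
  -(η2 r) * KK t r + η1 r * ((r - t) ^ 2 * (r + 2 * t) / 6) - η r * ((r ^ 2 - t ^ 2) / 2) - φ r

lemma Cd.hA (H : Cd φ η η1 η2 η3) {t r : ℝ} (hr : 0 < r) :
    HasDerivAt (AA φ η η1 η2 t) (-(η3 r) * KK t r) r := by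
  unfold AA KK
  have hr1 : HasDerivAt (fun r : ℝ => (r - t) ^ 3 * (r + 3 * t) / 24)
      ((r - t) ^ 2 * (r + 2 * t) / 6) r := by
    have h1 : HasDerivAt (fun r : ℝ => r - t) 1 r := (hasDerivAt_id r).sub_const t
    have h2 : HasDerivAt (fun r : ℝ => r + 3 * t) 1 r := (hasDerivAt_id r).add_const _
    have h3 := ((h1.fun_pow 3).fun_mul h2).div_const 24
    refine h3.congr_deriv ?_
    push_cast
    ring
  have hr2 : HasDerivAt (fun r : ℝ => (r - t) ^ 2 * (r + 2 * t) / 6) ((r ^ 2 - t ^ 2) / 2) r := by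
    have h1 : HasDerivAt (fun r : ℝ => r - t) 1 r := (hasDerivAt_id r).sub_const t
    have h2 : HasDerivAt (fun r : ℝ => r + 2 * t) 1 r := (hasDerivAt_id r).add_const _
    have h3 := ((h1.fun_pow 2).fun_mul h2).div_const 6
    refine h3.congr_deriv ?_
    push_cast
    ring
  have hr3 : HasDerivAt (fun r : ℝ => (r ^ 2 - t ^ 2) / 2) r r := by
    have h3 := (((hasDerivAt_id' r).fun_pow 2).sub_const (t ^ 2)).div_const 2
    refine h3.congr_deriv ?_
    push_cast
    ring
  have := ((((H.h3 r hr).fun_neg.fun_mul hr1).fun_add ((H.h2 r hr).fun_mul hr2)).fun_sub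
    ((H.h1 r hr).fun_mul hr3)).fun_sub (H.hφ r hr)
  refine this.congr_deriv ?_
  ring

lemma Cd.lA (H : Cd φ η η1 η2 η3) {t : ℝ} (ht : 0 < t) :
    Tendsto (AA φ η η1 η2 t) atTop (𝓝 0) := by
  have e1 : Tendsto (fun r => η2 r * KK t r) atTop (𝓝 0) := by
    refine squeeze_zero' ?_ ?_ H.l2
    · filter_upwards [eventually_ge_atTop t] with r hr
      have : 0 ≤ r - t := by linarith
      have h2 : 0 ≤ r + 3 * t := by linarith
      exact mul_nonneg (H.s2 r (by linarith)) (by unfold KK; positivity)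
    · filter_upwards [eventually_ge_atTop t] with r hr
      have h0 : 0 ≤ r - t := by linarith
      have h2 : KK t r ≤ r ^ 4 := by
        unfold KK
        have h3 : (r - t) ^ 3 ≤ r ^ 3 := pow_le_pow_left₀ h0 (by linarith) 3
        have h4 : r + 3 * t ≤ 4 * r := by linarith
        have h5 : (r - t) ^ 3 * (r + 3 * t) ≤ r ^ 3 * (4 * r) :=
          mul_le_mul h3 h4 (by linarith) (pow_nonneg (by linarith) 3)
        nlinarith [sq_nonneg (r ^ 2)]
      rw [mul_comm]
      exact mul_le_mul_of_nonneg_right h2 (H.s2 r (by linarith))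
  have e2 : Tendsto (fun r => -η1 r * ((r - t) ^ 2 * (r + 2 * t) / 6)) atTop (𝓝 0) := by
    refine squeeze_zero' ?_ ?_ H.l1
    · filter_upwards [eventually_ge_atTop t] with r hr
      have h2 : 0 ≤ r + 2 * t := by linarith
      exact mul_nonneg (by linarith [H.s1 r (by linarith)]) (by positivity)
    · filter_upwards [eventually_ge_atTop t] with r hr
      have h0 : 0 ≤ r - t := by linarith
      have h2 : (r - t) ^ 2 * (r + 2 * t) / 6 ≤ r ^ 3 := by
        have h3 : (r - t) ^ 2 ≤ r ^ 2 := pow_le_pow_left₀ h0 (by linarith) 2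
        have h4 : r + 2 * t ≤ 3 * r := by linarith
        have h5 : (r - t) ^ 2 * (r + 2 * t) ≤ r ^ 2 * (3 * r) :=
          mul_le_mul h3 h4 (by linarith) (by positivity)
        have h6 : 0 ≤ r ^ 3 := by have : 0 ≤ r := by linarith
                                  positivity
        nlinarith
      rw [mul_comm]
      exact mul_le_mul_of_nonneg_right h2 (by linarith [H.s1 r (by linarith)])
  have e3 : Tendsto (fun r => η r * ((r ^ 2 - t ^ 2) / 2)) atTop (𝓝 0) := by
    refine squeeze_zero' ?_ ?_ H.lη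
    · filter_upwards [eventually_ge_atTop t] with r hr
      have h2 : 0 ≤ (r ^ 2 - t ^ 2) / 2 := by nlinarith
      exact mul_nonneg (H.s0 r (by linarith)) h2
    · filter_upwards [eventually_ge_atTop t] with r hr
      have h2 : (r ^ 2 - t ^ 2) / 2 ≤ r ^ 2 := by nlinarith
      rw [mul_comm]
      exact mul_le_mul_of_nonneg_right h2 (H.s0 r (by linarith))
  have := ((e1.neg.sub e2).sub e3).sub H.lφ
  simp only [neg_zero, sub_zero] at this
  refine this.congr fun r => ?_
  unfold AA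
  ring

lemma Cd.kk (H : Cd φ η η1 η2 η3) {t : ℝ} (ht : 0 < t) :
    IntegrableOn (fun r => -(η3 r) * KK t r) (Ioi t) ∧
      ∫ r in Ioi t, -(η3 r) * KK t r = φ t := by
  have hd : ∀ r ∈ Ici t, HasDerivAt (AA φ η η1 η2 t) (-(η3 r) * KK t r) r :=
    fun r hr => H.hA (ht.trans_le hr)
  have hp : ∀ r ∈ Ioi t, 0 ≤ -(η3 r) * KK t r := by
    intro r hr
    have h0 : 0 < r - t := sub_pos.2 hr
    have h1 : 0 < r := ht.trans hr
    exact mul_nonneg (by linarith [H.s3 r h1]) (by unfold KK; positivity)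
  refine ⟨integrableOn_Ioi_deriv_of_nonneg' hd hp (H.lA ht), ?_⟩
  rw [integral_Ioi_of_hasDerivAt_of_nonneg' hd hp (H.lA ht)]
  unfold AA KK
  ring

/-- the mixing density -/
noncomputable def ww (η2 : ℝ → ℝ) (r : ℝ) : ℝ := if 0 < r then -(deriv η2 r) * r ^ 4 / 24 else 0

lemma ww_meas (η2 : ℝ → ℝ) : Measurable (ww η2) := by
  unfold ww
  refine Measurable.ite measurableSet_Ioi ?_ measurable_const
  exact ((measurable_deriv η2).neg.mul (measurable_id.pow_const 4)).div_const 24

lemma Cd.ww_nonneg (H : Cd φ η η1 η2 η3) (r : ℝ) : 0 ≤ ww η2 r := by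
  unfold ww
  split_ifs with h
  · rw [(H.h3 r h).deriv]
    have := H.s3 r h
    have h2 : 0 ≤ -(η3 r) := by linarith
    positivity
  · exact le_rfl

lemma Wd_meas : Measurable Wd := by unfold Wd; fun_prop

lemma Wd_nonneg (x : ℝ) : 0 ≤ Wd x := by unfold Wd; positivity

lemma Wd_cont : Continuous Wd := by unfold Wd; fun_prop

lemma Cd.key (H : Cd φ η η1 η2 η3) {t : ℝ} (ht : 0 < t) :
    Integrable (fun r => ww η2 r * Wd (t / r)) ∧ ∫ r, ww η2 r * Wd (t / r) = φ t := by
  have he : (fun r => ww η2 r * Wd (t / r)) =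
      (Ioi t).indicator (fun r => -(η3 r) * KK t r) := by
    funext r
    by_cases hr : t < r
    · have hr0 : 0 < r := ht.trans hr
      rw [indicator_of_mem (by exact hr)]
      unfold ww Wd KK
      rw [if_pos hr0, (H.h3 r hr0).deriv, abs_of_pos (div_pos ht hr0), max_eq_left]
      · field_simp
      · rw [sub_nonneg, div_le_one hr0]
        exact hr.le
    · rw [indicator_of_notMem (by exact hr)]
      unfold ww Wd
      split_ifs with h0
      · rw [abs_of_pos (div_pos ht h0), max_eq_right]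
        · simp
        · rw [sub_nonpos, one_le_div h0]
          exact not_lt.1 hr
      · simp
  obtain ⟨h1, h2⟩ := H.kk ht
  constructor
  · rw [he, integrable_indicator_iff measurableSet_Ioi]
    exact h1
  · rw [he, integral_indicator measurableSet_Ioi]
    exact h2

lemma Wd_anti {x y : ℝ} (hx : 0 ≤ x) (hxy : x ≤ y) : Wd y ≤ Wd x := by
  unfold Wd
  rw [abs_of_nonneg hx, abs_of_nonneg (hx.trans hxy)]
  rcases le_total 1 y with h | h
  · rw [max_eq_right (by linarith : 1 - y ≤ 0)]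
    have : 0 ≤ max (1 - x) 0 := le_max_right _ _
    have : (0 : ℝ) ^ 3 * (1 + 3 * y) = 0 := by simp
    rw [this]
    positivity
  · rw [max_eq_left (by linarith : 0 ≤ 1 - y), max_eq_left (by linarith : 0 ≤ 1 - x)]
    have h1 : 0 ≤ 1 - y := by linarith
    have h2 : 0 ≤ y - x := by linarith
    -- derivative is -12 x (1-x)^2
    nlinarith [mul_nonneg h1 h2, mul_nonneg hx h2, mul_nonneg (mul_nonneg hx h2) (sq_nonneg (1 - y)),
      mul_nonneg h2 h2, mul_nonneg (mul_nonneg h2 h2) (sq_nonneg (1 - y)),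
      mul_nonneg (mul_nonneg h2 h2) (mul_nonneg hx h1), mul_nonneg (mul_nonneg hx h2) (mul_nonneg h2 h1),
      mul_nonneg (mul_nonneg h2 h2) (mul_nonneg h2 h1), mul_nonneg (mul_nonneg hx h2) (mul_nonneg h2 h2),
      mul_nonneg (mul_nonneg h2 h2) (mul_nonneg h2 h2)]

lemma Cd.mass (H : Cd φ η η1 η2 η3) : ∫⁻ r, ENNReal.ofReal (ww η2 r) = 1 := by
  have hseq : Tendsto (fun n : ℕ => 1 / ((n : ℝ) + 1)) atTop (𝓝 0) :=
    tendsto_one_div_add_atTop_nhds_zero_nat
  have h1 : Tendsto (fun n : ℕ => ∫⁻ r, ENNReal.ofReal (ww η2 r * Wd ((1 / ((n : ℝ) + 1)) / r)))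
      atTop (𝓝 (∫⁻ r, ENNReal.ofReal (ww η2 r))) := by
    refine lintegral_tendsto_of_tendsto_of_monotone ?_ ?_ ?_
    · intro n
      exact (((ww_meas η2).mul (Wd_meas.comp (measurable_const.div measurable_id))).ennreal_ofReal
        ).aemeasurable
    · refine Eventually.of_forall fun r => ?_
      intro n m hnm
      refine ENNReal.ofReal_le_ofReal ?_
      rcases le_or_gt r 0 with h | h
      · have : ww η2 r = 0 := by unfold ww; rw [if_neg (not_lt.2 h)]
        simp [this]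
      · refine mul_le_mul_of_nonneg_left (Wd_anti (by positivity) ?_) (H.ww_nonneg r)
        refine div_le_div_of_nonneg_right ?_ h.le
        refine one_div_le_one_div_of_le (by positivity) ?_
        have : (n : ℝ) ≤ m := by exact_mod_cast hnm
        linarith
    · refine Eventually.of_forall fun r => ?_
      have h2 : Tendsto (fun n : ℕ => ww η2 r * Wd ((1 / ((n : ℝ) + 1)) / r)) atTop
          (𝓝 (ww η2 r * Wd (0 / r))) :=
        ((Wd_cont.tendsto _).comp (hseq.div_const r)).const_mul _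
      have h3 : Wd (0 / r) = 1 := by simp [Wd]
      rw [h3, mul_one] at h2
      exact ENNReal.tendsto_ofReal h2
  have h2 : Tendsto (fun n : ℕ => ∫⁻ r, ENNReal.ofReal (ww η2 r * Wd ((1 / ((n : ℝ) + 1)) / r)))
      atTop (𝓝 1) := by
    have h3 : ∀ n : ℕ, ∫⁻ r, ENNReal.ofReal (ww η2 r * Wd ((1 / ((n : ℝ) + 1)) / r)) =
        ENNReal.ofReal (φ (1 / ((n : ℝ) + 1))) := by
      intro n
      obtain ⟨h4, h5⟩ := H.key (t := 1 / ((n : ℝ) + 1)) (by positivity)
      rw [← h5, ofReal_integral_eq_lintegral_ofReal h4]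
      exact Eventually.of_forall fun r => mul_nonneg (H.ww_nonneg r) (Wd_nonneg _)
    simp_rw [h3]
    have h6 : Tendsto (fun n : ℕ => φ (1 / ((n : ℝ) + 1))) atTop (𝓝 (φ 0)) := by
      refine Tendsto.comp H.φc ?_
      refine tendsto_nhdsWithin_iff.2 ⟨hseq, Eventually.of_forall fun n => ?_⟩
      exact mem_Ici.2 (by positivity)
    rw [H.φ0] at h6
    simpa using ENNReal.tendsto_ofReal h6
  exact tendsto_nhds_unique h1 h2

theorem Cd.main (H : Cd φ η η1 η2 η3) (m : Measure ℝ) (hm : IsProbabilityMeasure m)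
    (hmc : ∀ t : ℝ, charFun m t = ((Wd t : ℝ) : ℂ)) :
    ∃ D : Measure ℝ, IsProbabilityMeasure D ∧ ∀ t : ℝ, charFun D t = ((φ |t| : ℝ) : ℂ) := by
  let ν : Measure ℝ := volume.withDensity fun r => ENNReal.ofReal (ww η2 r)
  have hν : IsProbabilityMeasure ν := by
    refine ⟨?_⟩
    rw [withDensity_apply _ MeasurableSet.univ, setLIntegral_univ]
    exact H.mass
  have hmeas : Measurable (fun p : ℝ × ℝ => p.2 / p.1) := measurable_snd.div measurable_fst
  let D : Measure ℝ := (ν.prod m).map (fun p => p.2 / p.1)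
  have hD : IsProbabilityMeasure D := Measure.isProbabilityMeasure_map hmeas.aemeasurable
  refine ⟨D, hD, fun t => ?_⟩
  have h1 : charFun D t = ∫ r, charFun m (t / r) ∂ν := by
    rw [charFun_apply_real, integral_map hmeas.aemeasurable (by fun_prop)]
    rw [integral_prod]
    · refine integral_congr_ae (Eventually.of_forall fun r => ?_)
      simp only [charFun_apply_real]
      refine integral_congr_ae (Eventually.of_forall fun x => ?_)
      simp only
      congr 1
      push_cast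
      ring
    · refine Integrable.mono' (integrable_const (1 : ℝ)) ?_ ?_
      · exact (by fun_prop : Measurable _).aestronglyMeasurable
      · refine Eventually.of_forall fun p => ?_
        rw [show (t : ℂ) * ((p.2 / p.1 : ℝ) : ℂ) * Complex.I =
          ((t * (p.2 / p.1) : ℝ) : ℂ) * Complex.I by push_cast; ring]
        rw [Complex.norm_exp_ofReal_mul_I]
  rw [h1]
  simp_rw [hmc]
  rw [integral_complex_ofReal]
  congr 1
  have h2 : ∫ r, Wd (t / r) ∂ν = ∫ r, ww η2 r * Wd (t / r) := by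
    rw [integral_withDensity_eq_integral_toReal_smul]
    · refine integral_congr_ae (Eventually.of_forall fun r => ?_)
      simp only [smul_eq_mul]
      rw [ENNReal.toReal_ofReal (H.ww_nonneg r)]
    · exact (ww_meas η2).ennreal_ofReal
    · exact Eventually.of_forall fun r => ENNReal.ofReal_lt_top
  rw [h2]
  rcases eq_or_ne t 0 with h0 | h0
  · subst h0
    have h3 : ∀ r : ℝ, ww η2 r * Wd (0 / r) = ww η2 r := by
      intro r
      simp [Wd]
    simp_rw [h3]
    rw [abs_zero, H.φ0]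
    rw [integral_eq_lintegral_of_nonneg_ae (Eventually.of_forall H.ww_nonneg)
      (ww_meas η2).aestronglyMeasurable, H.mass]
    simp
  · have h3 : 0 < |t| := abs_pos.2 h0
    rw [← (H.key h3).2]
    refine integral_congr_ae (Eventually.of_forall fun r => ?_)
    simp only
    have h4 : Wd (t / r) = Wd (|t| / r) := by
      unfold Wd
      rw [abs_div, abs_div, abs_abs]
    rw [h4]

end Pool.Agent.R963.TS
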