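import Pool.Agent.R963.TS.Bnd
import Pool.Agent.R963.TS.Crit

/-!
# Verification of the criterion for the square root of `exp (-t) * LL ks 0 t`
-/

set_option autoImplicit false

open MeasureTheory Filter Topology Set

namespace Pool.Agent.R963.TS

noncomputable def N0 (t : ℝ) : ℝ := Real.exp t * LL ks 0 t
noncomputable def N1 (t : ℝ) : ℝ := Real.exp t * (LL ks 0 t - LL ks 1 t)
noncomputable def N2 (t : ℝ) : ℝ := Real.exp t * (LL ks 0 t - 2 * LL ks 1 t + LL ks 2 t)
noncomputable def N3 (t : ℝ) : ℝ :=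
  Real.exp t * (LL ks 0 t - 3 * LL ks 1 t + 3 * LL ks 2 t - LL ks 3 t)

lemma dN0 {t : ℝ} (ht : 0 < t) : HasDerivAt N0 (N1 t) t := by
  have h := (Real.hasDerivAt_exp t).fun_mul (ks_gd.deriv 0 ht)
  refine h.congr_deriv ?_
  unfold N1; ring

lemma dN1 {t : ℝ} (ht : 0 < t) : HasDerivAt N1 (N2 t) t := by
  have h := (Real.hasDerivAt_exp t).fun_mul ((ks_gd.deriv 0 ht).fun_sub (ks_gd.deriv 1 ht))
  refine h.congr_deriv ?_
  unfold N2; ring

lemma dN2 {t : ℝ} (ht : 0 < t) : HasDerivAt N2 (N3 t) t := by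
  have h := (Real.hasDerivAt_exp t).fun_mul (((ks_gd.deriv 0 ht).fun_sub
    ((ks_gd.deriv 1 ht).const_mul 2)).fun_add (ks_gd.deriv 2 ht))
  refine h.congr_deriv ?_
  unfold N3; ring

noncomputable def gb (t : ℝ) : ℝ := Real.exp (-t) * LL ks 0 t

lemma dgb {t : ℝ} (ht : 0 < t) : HasDerivAt gb (-(t * (Real.exp (-t) * LL qs 0 t))) t := by
  have h := ((hasDerivAt_id' t).fun_neg.exp).fun_mul (ks_gd.deriv 0 ht)
  refine h.congr_deriv ?_
  have := ibp ht
  simp only [zero_add]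
  linear_combination (-Real.exp (-t)) * this

lemma qs_pos {x : ℝ} (hx : 0 < x) : 0 < qs x := by
  unfold qs
  have h := Real.sinh_pos_iff.2 hx
  refine mul_pos ?_ h
  unfold QQ
  have h1 : Real.arctan (Real.sinh x / 3) < Real.arctan (Real.sinh x) :=
    Real.arctan_strictMono (by linarith)
  have h2 := Real.arctan_lt_pi_div_two (Real.sinh x)
  have h3 : 0 ≤ Real.arctan (Real.sinh x / 3) := Real.arctan_nonneg.2 (by positivity)
  have h4 : 0 < Real.sin ((Real.arctan (Real.sinh x) - Real.arctan (Real.sinh x / 3)) / 2) := by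
    apply Real.sin_pos_of_pos_of_lt_pi
    · linarith
    · linarith [Real.pi_pos]
  positivity

lemma C0_pos {t : ℝ} (ht : 0 < t) : 0 < LL qs 0 t := by
  unfold LL
  rw [setIntegral_pos_iff_support_of_nonneg_ae]
  · have : Function.support (fun x => qs x * uu x ^ 0 * Real.exp (-(t * uu x))) ∩ Ioi 0 =
        Ioi (0 : ℝ) := by
      ext x
      simp only [mem_inter_iff, Function.mem_support, mem_Ioi, and_iff_right_iff_imp]
      intro hx
      have := qs_pos hx
      have h2 : 0 < uu x ^ 0 := by simp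
      positivity
    rw [this]
    simp
  · refine (ae_restrict_iff' measurableSet_Ioi).2 (Eventually.of_forall fun x hx => ?_)
    have h1 : 0 < qs x := qs_pos hx
    have h2 : 0 ≤ uu x ^ 0 := by simp
    simp only [Pi.zero_apply]
    positivity
  · exact qs_gd.int 0 ht

lemma gb_lim : Tendsto gb atTop (𝓝 0) := by
  set M : ℝ := ∫ x in Ioi (0 : ℝ), bdf 4 0 1 x with hM
  have h1 : Tendsto (fun t : ℝ => Real.exp (-t) * M) atTop (𝓝 0) := by
    simpa using Real.tendsto_exp_neg_atTop_nhds_zero.mul_const M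
  refine squeeze_zero_norm' ?_ h1
  filter_upwards [eventually_ge_atTop 1] with t ht
  unfold gb
  rw [norm_mul, Real.norm_eq_abs, abs_of_pos (Real.exp_pos _)]
  refine mul_le_mul_of_nonneg_left ?_ (Real.exp_pos _).le
  unfold LL
  refine norm_integral_le_of_norm_le (bd_int (by norm_num) 0 one_pos) ?_
  refine (ae_restrict_iff' measurableSet_Ioi).2 (Eventually.of_forall fun x hx => ?_)
  have hx0 : 0 ≤ x := le_of_lt hx
  have hu := uu_nonneg x
  rw [norm_mul, norm_mul, Real.norm_eq_abs, Real.norm_eq_abs, Real.norm_eq_abs,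
    abs_of_nonneg (Real.exp_pos _).le, abs_of_nonneg (pow_nonneg hu _)]
  unfold bdf
  have h3 : Real.exp (-(t * uu x)) ≤ Real.exp (-(1 * uu x)) := by
    apply Real.exp_le_exp.2
    nlinarith
  have h4 := ks_gd.bd x hx0
  gcongr

lemma gb_pos {t : ℝ} (ht : 0 < t) : 0 < gb t := by
  have hanti : StrictAntiOn gb (Ioi 0) := by
    refine strictAntiOn_of_deriv_neg (convex_Ioi 0)
      (fun s hs => (dgb hs).continuousAt.continuousWithinAt) ?_
    rw [interior_Ioi]
    intro s hs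
    rw [(dgb hs).deriv]
    have h1 := C0_pos hs
    have h2 : (0 : ℝ) < s := hs
    have : 0 < s * (Real.exp (-s) * LL qs 0 s) := by positivity
    linarith
  by_contra hcon
  push Not at hcon
  have h1 : gb (t + 1) < 0 := (hanti (mem_Ioi.2 ht) (mem_Ioi.2 (by linarith)) (by linarith)).trans_le
    hcon
  have h2 : ∀ᶠ s in atTop, gb s ≤ gb (t + 1) := by
    filter_upwards [eventually_gt_atTop (t + 1)] with s hs
    exact (hanti (mem_Ioi.2 (by linarith)) (mem_Ioi.2 (by linarith)) hs).le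
  have h3 := le_of_tendsto gb_lim h2
  linarith

lemma a0_pos {t : ℝ} (ht : 0 < t) : 0 < LL ks 0 t := by
  have h := gb_pos ht
  unfold gb at h
  exact (pos_iff_pos_of_mul_pos h).1 (Real.exp_pos _)

lemma N0_pos {t : ℝ} (ht : 0 < t) : 0 < N0 t := mul_pos (Real.exp_pos _) (a0_pos ht)

lemma N1_ge {t : ℝ} (ht : 0 < t) : N0 t / 2 ≤ N1 t := by
  unfold N0 N1
  have h1 := b1_le ht
  have h2 := a0_pos ht
  have h3 := Real.exp_pos t
  nlinarith

lemma N1_pos {t : ℝ} (ht : 0 < t) : 0 < N1 t := by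
  have := N1_ge ht
  have := N0_pos ht
  linarith

lemma E2_pos {t : ℝ} (ht : 0 < t) : 0 ≤ 3 * N1 t ^ 2 - 2 * N0 t * N2 t := by
  have h1 := b1_le ht
  have h2 := b2_le ht
  have ha := a0_pos ht
  set a := LL ks 0 t with hadef
  obtain ⟨x, hx⟩ : ∃ x, LL ks 1 t = x * a := ⟨LL ks 1 t / a, by field_simp⟩
  obtain ⟨y, hy⟩ : ∃ y, LL ks 2 t = y * a := ⟨LL ks 2 t / a, by field_simp⟩
  rw [hx] at h1
  rw [hy] at h2
  have hx1 : x ≤ 6 / 25 := le_of_mul_le_mul_right h1 ha
  have hy1 : y ≤ 9 / 100 := le_of_mul_le_mul_right h2 ha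
  have e : 3 * N1 t ^ 2 - 2 * N0 t * N2 t = (Real.exp t) ^ 2 * a ^ 2 *
      (1 - 2 * x + 3 * x ^ 2 - 2 * y) := by
    unfold N0 N1 N2
    rw [← hadef, hx, hy]
    ring
  rw [e]
  have h3 : 0 ≤ 1 - 2 * x + 3 * x ^ 2 - 2 * y := by nlinarith [sq_nonneg (x - 1 / 3)]
  positivity

lemma E3_pos {t : ℝ} (ht : 0 < t) :
    0 ≤ 15 * N1 t ^ 3 - 18 * N0 t * N1 t * N2 t + 4 * N0 t ^ 2 * N3 t := by
  have h1 := b1_le ht
  have h2 := b2_le ht
  have h3 := b3_le ht
  have ha := a0_pos ht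
  set a := LL ks 0 t with hadef
  obtain ⟨x, hx⟩ : ∃ x, LL ks 1 t = x * a := ⟨LL ks 1 t / a, by field_simp⟩
  obtain ⟨y, hy⟩ : ∃ y, LL ks 2 t = y * a := ⟨LL ks 2 t / a, by field_simp⟩
  obtain ⟨z, hz⟩ : ∃ z, LL ks 3 t = z * a := ⟨LL ks 3 t / a, by field_simp⟩
  rw [hx] at h1
  rw [hy] at h2
  rw [hz] at h3
  have hx1 : x ≤ 6 / 25 := le_of_mul_le_mul_right h1 ha
  have hy1 : y ≤ 9 / 100 := le_of_mul_le_mul_right h2 ha
  have hz1 : z ≤ 729 / 15625 := le_of_mul_le_mul_right h3 ha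
  have e : 15 * N1 t ^ 3 - 18 * N0 t * N1 t * N2 t + 4 * N0 t ^ 2 * N3 t =
      (Real.exp t) ^ 3 * a ^ 3 *
      (1 - 3 * x + 9 * x ^ 2 - 15 * x ^ 3 - 6 * y * (1 - 3 * x) - 4 * z) := by
    unfold N0 N1 N2 N3
    rw [← hadef, hx, hy, hz]
    ring
  rw [e]
  have h4 : 0 ≤ (9 / 100 - y) * (1 - 3 * x) := mul_nonneg (by linarith) (by linarith)
  have h5 : 0 ≤ x ^ 2 * (6 / 25 - x) := mul_nonneg (sq_nonneg x) (by linarith)
  have h3 : 0 ≤ 1 - 3 * x + 9 * x ^ 2 - 15 * x ^ 3 - 6 * y * (1 - 3 * x) - 4 * z := by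
    nlinarith [sq_nonneg (x - 1 / 8)]
  positivity

/-! ### the function `beta = N0^{-1/2}` -/

noncomputable def RR (t : ℝ) : ℝ := Real.sqrt (N0 t)
noncomputable def B0 (t : ℝ) : ℝ := (RR t)⁻¹
noncomputable def B1 (t : ℝ) : ℝ := -(N1 t / (2 * RR t ^ 3))
noncomputable def B2 (t : ℝ) : ℝ := -(N2 t / (2 * RR t ^ 3)) + 3 * N1 t ^ 2 / (4 * RR t ^ 5)
noncomputable def B3 (t : ℝ) : ℝ :=
  -(N3 t / (2 * RR t ^ 3)) + 9 * N1 t * N2 t / (4 * RR t ^ 5) - 15 * N1 t ^ 3 / (8 * RR t ^ 7)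

lemma RR_pos {t : ℝ} (ht : 0 < t) : 0 < RR t := Real.sqrt_pos.2 (N0_pos ht)
lemma RR_sq {t : ℝ} (ht : 0 < t) : RR t ^ 2 = N0 t := Real.sq_sqrt (N0_pos ht).le

lemma dRR {t : ℝ} (ht : 0 < t) : HasDerivAt RR (N1 t / (2 * RR t)) t :=
  (dN0 ht).sqrt (N0_pos ht).ne'

lemma dB0 {t : ℝ} (ht : 0 < t) : HasDerivAt B0 (B1 t) t := by
  have hR := RR_pos ht
  refine ((dRR ht).fun_inv hR.ne').congr_deriv ?_
  unfold B1
  field_simp

lemma dB1 {t : ℝ} (ht : 0 < t) : HasDerivAt B1 (B2 t) t := by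
  have hR := RR_pos ht
  have h1 := ((dRR ht).fun_pow 3).const_mul 2
  have h2 := ((dN1 ht).fun_div h1 (by positivity)).fun_neg
  refine h2.congr_deriv ?_
  unfold B2
  push_cast
  field_simp
  ring

lemma dB2 {t : ℝ} (ht : 0 < t) : HasDerivAt B2 (B3 t) t := by
  have hR := RR_pos ht
  have h1 := ((dRR ht).fun_pow 3).const_mul 2
  have h2 := ((dN2 ht).fun_div h1 (by positivity)).fun_neg
  have h3 := ((dRR ht).fun_pow 5).const_mul 4
  have h4 := (((dN1 ht).fun_pow 2).const_mul 3).fun_div h3 (by positivity)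
  refine (h2.fun_add h4).congr_deriv ?_
  unfold B3
  push_cast
  field_simp
  ring

lemma B0_nonneg {t : ℝ} (ht : 0 < t) : 0 ≤ B0 t := (inv_pos.2 (RR_pos ht)).le

lemma B1_nonpos {t : ℝ} (ht : 0 < t) : B1 t ≤ 0 := by
  unfold B1
  have h1 := RR_pos ht
  have h2 := N1_pos ht
  have : 0 ≤ N1 t / (2 * RR t ^ 3) := by positivity
  linarith

lemma B2_nonneg {t : ℝ} (ht : 0 < t) : 0 ≤ B2 t := by
  have hR := RR_pos ht
  have e : B2 t = (3 * N1 t ^ 2 - 2 * N0 t * N2 t) / (4 * RR t ^ 5) := by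
    unfold B2
    rw [← RR_sq ht]
    field_simp
    ring
  rw [e]
  exact div_nonneg (E2_pos ht) (by positivity)

lemma B3_nonpos {t : ℝ} (ht : 0 < t) : B3 t ≤ 0 := by
  have hR := RR_pos ht
  have e : B3 t = -((15 * N1 t ^ 3 - 18 * N0 t * N1 t * N2 t + 4 * N0 t ^ 2 * N3 t) /
      (8 * RR t ^ 7)) := by
    unfold B3
    rw [← RR_sq ht]
    field_simp
    ring
  rw [e]
  have := div_nonneg (E3_pos ht) (by positivity : 0 ≤ 8 * RR t ^ 7)
  linarith

/-! ### the function `eta` -/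

noncomputable def E0 (t : ℝ) : ℝ := LL qs 0 t * B0 t / 2
noncomputable def E1 (t : ℝ) : ℝ := (-(LL qs 1 t) * B0 t + LL qs 0 t * B1 t) / 2
noncomputable def E2 (t : ℝ) : ℝ :=
  (LL qs 2 t * B0 t + 2 * (-(LL qs 1 t) * B1 t) + LL qs 0 t * B2 t) / 2
noncomputable def E3 (t : ℝ) : ℝ :=
  (-(LL qs 3 t) * B0 t + 3 * (LL qs 2 t * B1 t) + 3 * (-(LL qs 1 t) * B2 t) +
    LL qs 0 t * B3 t) / 2

lemma dE0 {t : ℝ} (ht : 0 < t) : HasDerivAt E0 (E1 t) t := by
  refine (((qs_gd.deriv 0 ht).fun_mul (dB0 ht)).div_const 2).congr_deriv ?_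
  unfold E1; ring

lemma dE1 {t : ℝ} (ht : 0 < t) : HasDerivAt E1 (E2 t) t := by
  refine ((((qs_gd.deriv 1 ht).fun_neg.fun_mul (dB0 ht)).fun_add
    ((qs_gd.deriv 0 ht).fun_mul (dB1 ht))).div_const 2).congr_deriv ?_
  unfold E2; ring

lemma dE2 {t : ℝ} (ht : 0 < t) : HasDerivAt E2 (E3 t) t := by
  refine (((((qs_gd.deriv 2 ht).fun_mul (dB0 ht)).fun_add
    (((qs_gd.deriv 1 ht).fun_neg.fun_mul (dB1 ht)).const_mul 2)).fun_add
    ((qs_gd.deriv 0 ht).fun_mul (dB2 ht))).div_const 2).congr_deriv ?_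
  unfold E3; ring

lemma qL (j : ℕ) (t : ℝ) : 0 ≤ LL qs j t := Gd.nonneg (fun _ hx => (qs_pos hx).le) j t

theorem cd_of (gg : ℝ → ℝ) (h : ∀ t, 0 < t → gg t = gb t) (h0 : gg 0 = 1)
    (hc : Continuous gg) : Cd (fun t => Real.sqrt (gg t)) E0 E1 E2 E3 where
  φ0 := by simp [h0]
  φc := (Real.continuous_sqrt.comp hc).continuousWithinAt
  hφ := by
    intro t ht
    have h1 : HasDerivAt gg (-(t * (Real.exp (-t) * LL qs 0 t))) t := by
      refine (dgb ht).congr_of_eventuallyEq ?_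
      filter_upwards [Ioi_mem_nhds ht] with s hs
      exact h s hs
    have h2 : gg t ≠ 0 := by rw [h t ht]; exact (gb_pos ht).ne'
    refine (h1.sqrt h2).congr_deriv ?_
    rw [h t ht]
    have h3 : RR t = Real.exp t * Real.sqrt (gb t) := by
      unfold RR
      rw [show N0 t = (Real.exp t) ^ 2 * gb t by
        unfold N0 gb
        rw [Real.exp_neg]
        field_simp, Real.sqrt_mul (by positivity), Real.sqrt_sq (Real.exp_pos t).le]
    have h4 : 0 < Real.sqrt (gb t) := Real.sqrt_pos.2 (gb_pos ht)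
    unfold E0 B0
    rw [h3, Real.exp_neg]
    field_simp
  h1 := fun t ht => dE0 ht
  h2 := fun t ht => dE1 ht
  h3 := fun t ht => dE2 ht
  s0 := fun t ht => by
    unfold E0
    have h1 := qL 0 t
    have h2 := B0_nonneg ht
    positivity
  s1 := fun t ht => by
    unfold E1
    have h1 := mul_nonneg (qL 1 t) (B0_nonneg ht)
    have h2 := mul_nonneg (qL 0 t) (neg_nonneg.2 (B1_nonpos ht))
    linarith
  s2 := fun t ht => by
    unfold E2
    have h1 := mul_nonneg (qL 2 t) (B0_nonneg ht)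
    have h2 := mul_nonneg (qL 1 t) (neg_nonneg.2 (B1_nonpos ht))
    have h3 := mul_nonneg (qL 0 t) (B2_nonneg ht)
    linarith
  s3 := fun t ht => by
    unfold E3
    have h1 := mul_nonneg (qL 3 t) (B0_nonneg ht)
    have h2 := mul_nonneg (qL 2 t) (neg_nonneg.2 (B1_nonpos ht))
    have h3 := mul_nonneg (qL 1 t) (B2_nonneg ht)
    have h4 := mul_nonneg (qL 0 t) (neg_nonneg.2 (B3_nonpos ht))
    linarith
  lφ := by
    have h1 : Tendsto gg atTop (𝓝 0) := by
      refine gb_lim.congr' ?_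
      filter_upwards [eventually_gt_atTop 0] with t ht
      exact (h t ht).symm
    have h2 := (Real.continuous_sqrt.tendsto 0).comp h1
    rw [Real.sqrt_zero] at h2
    exact h2
  lη := by
    set m : ℝ := N0 1 * Real.exp (-(1 / 2)) with hm
    have hm0 : 0 < m := mul_pos (N0_pos one_pos) (Real.exp_pos _)
    have hmono : MonotoneOn (fun t => N0 t * Real.exp (-(t / 2))) (Ioi 0) := by
      refine mono_aux (f' := fun t => (N1 t - N0 t / 2) * Real.exp (-(t / 2))) ?_ ?_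
      · intro t ht
        have h1 : HasDerivAt (fun t : ℝ => -(t / 2)) (-(1 / 2)) t :=
          ((hasDerivAt_id' t).div_const 2).fun_neg
        refine ((dN0 ht).fun_mul h1.exp).congr_deriv ?_
        ring
      · intro t ht
        exact mul_nonneg (by linarith [N1_ge ht]) (Real.exp_pos _).le
    have hC : ∀ t, 1 ≤ t → LL qs 0 t ≤ LL qs 0 1 := by
      intro t ht
      refine setIntegral_mono_on (qs_gd.int 0 (by linarith)) (qs_gd.int 0 one_pos)
        measurableSet_Ioi fun x hx => ?_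
      have h1 : 0 ≤ qs x := (qs_pos hx).le
      have hu := uu_nonneg x
      have h3 : Real.exp (-(t * uu x)) ≤ Real.exp (-(1 * uu x)) := by
        apply Real.exp_le_exp.2
        nlinarith
      gcongr
    have h1 : Tendsto (fun t : ℝ => (8 * LL qs 0 1 / Real.sqrt m) *
        ((t / 4) ^ 2 * Real.exp (-(t / 4)))) atTop (𝓝 0) := by
      have h2 : Tendsto (fun t : ℝ => t / 4) atTop atTop := tendsto_id.atTop_div_const (by norm_num)
      simpa using ((Real.tendsto_pow_mul_exp_neg_atTop_nhds_zero 2).comp h2).const_mul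
        (8 * LL qs 0 1 / Real.sqrt m)
    refine squeeze_zero' ?_ ?_ h1
    · filter_upwards [eventually_gt_atTop 0] with t ht
      unfold E0
      have h1 := qL 0 t
      have h2 := B0_nonneg ht
      positivity
    · filter_upwards [eventually_ge_atTop 1] with t ht
      have ht0 : 0 < t := by linarith
      have h3 : m ≤ N0 t * Real.exp (-(t / 2)) := hmono (mem_Ioi.2 one_pos) (mem_Ioi.2 ht0) ht
      have h4 : m * Real.exp (t / 2) ≤ N0 t := by
        rw [Real.exp_neg, ← div_eq_mul_inv, le_div_iff₀ (Real.exp_pos _)] at h3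
        exact h3
      have h5 : Real.sqrt m * Real.exp (t / 4) ≤ RR t := by
        unfold RR
        rw [show Real.sqrt m * Real.exp (t / 4) = Real.sqrt (m * Real.exp (t / 2)) by
          rw [Real.sqrt_mul hm0.le, show t / 2 = t / 4 + t / 4 by ring, Real.exp_add,
            Real.sqrt_mul_self (Real.exp_pos _).le]]
        exact Real.sqrt_le_sqrt h4
      have h6 : 0 < Real.sqrt m := Real.sqrt_pos.2 hm0
      have h7 : B0 t ≤ (Real.sqrt m)⁻¹ * Real.exp (-(t / 4)) := by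
        unfold B0
        rw [Real.exp_neg, ← mul_inv]
        exact inv_anti₀ (by positivity) h5
      have h8 := hC t ht
      have h9 := qL 0 t
      have h10 := B0_nonneg ht0
      unfold E0
      calc t ^ 2 * (LL qs 0 t * B0 t / 2)
          ≤ t ^ 2 * (LL qs 0 1 * ((Real.sqrt m)⁻¹ * Real.exp (-(t / 4))) / 2) := by
            gcongr
            exact h9.trans h8
        _ = _ := by
            field_simp
            ring

end Pool.Agent.R963.TS
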