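import Pool.Agent.R963.TS.Defs

/-!
# Elementary properties of `kap`
-/

set_option autoImplicit false

open MeasureTheory Filter Topology Set

namespace Pool.Agent.R963.TS

/-- the angle -/
noncomputable def th (w : ℝ) : ℝ := 3 / 2 * Real.arctan w + 1 / 2 * Real.arctan (w / 3)

noncomputable def pf (w : ℝ) : ℝ := (1 + w ^ 2) ^ (-(3 / 4) : ℝ) * (9 + w ^ 2) ^ (-(1 / 4) : ℝ)

lemma kap_eq (w : ℝ) : kap w = pf w * Real.cos (th w) := rfl

lemma pf_pos (w : ℝ) : 0 < pf w := by unfold pf; positivity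

lemma kap_cont : Continuous kap := by
  unfold kap
  refine Continuous.mul (Continuous.mul ?_ ?_) ?_
  · exact (by fun_prop : Continuous fun w : ℝ => 1 + w ^ 2).rpow_const
      (fun w => Or.inl (by positivity))
  · exact (by fun_prop : Continuous fun w : ℝ => 9 + w ^ 2).rpow_const
      (fun w => Or.inl (by positivity))
  · exact Real.continuous_cos.comp (by fun_prop)

lemma kap_even (w : ℝ) : kap (-w) = kap w := by
  unfold kap
  rw [neg_div, Real.arctan_neg, Real.arctan_neg]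
  rw [show 3 / 2 * -Real.arctan w + 1 / 2 * -Real.arctan (w / 3) =
    -(3 / 2 * Real.arctan w + 1 / 2 * Real.arctan (w / 3)) by ring, Real.cos_neg]
  simp

lemma abs_kap_le (w : ℝ) : |kap w| ≤ (1 + w ^ 2) ^ (-(3 / 4) : ℝ) := by
  unfold kap
  rw [abs_mul, abs_mul]
  have h1 : |(1 + w ^ 2) ^ (-(3 / 4) : ℝ)| = (1 + w ^ 2) ^ (-(3 / 4) : ℝ) :=
    abs_of_pos (by positivity)
  have h2 : |(9 + w ^ 2) ^ (-(1 / 4) : ℝ)| ≤ 1 := by
    rw [abs_of_pos (by positivity)]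
    exact Real.rpow_le_one_of_one_le_of_nonpos (by nlinarith [sq_nonneg w]) (by norm_num)
  have h3 := Real.abs_cos_le_one (3 / 2 * Real.arctan w + 1 / 2 * Real.arctan (w / 3))
  rw [h1]
  have h4 : 0 < (1 + w ^ 2) ^ (-(3 / 4) : ℝ) := by positivity
  calc _ ≤ (1 + w ^ 2) ^ (-(3 / 4) : ℝ) * 1 * 1 := by
        gcongr
    _ = _ := by ring

lemma abs_kap_le_one (w : ℝ) : |kap w| ≤ 1 :=
  (abs_kap_le w).trans (Real.rpow_le_one_of_one_le_of_nonpos (by nlinarith [sq_nonneg w])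
    (by norm_num))

lemma th_pos {w : ℝ} (hw : 0 < w) : 0 < th w := by
  unfold th
  have h1 := Real.arctan_pos.2 hw
  have h2 := Real.arctan_pos.2 (by positivity : 0 < w / 3)
  positivity

lemma th_nonneg {w : ℝ} (hw : 0 ≤ w) : 0 ≤ th w := by
  unfold th
  have h1 := Real.arctan_nonneg.2 hw
  have h2 := Real.arctan_nonneg.2 (by positivity : 0 ≤ w / 3)
  positivity

lemma th_lt (w : ℝ) : th w < Real.pi := by
  unfold th
  have h1 := Real.arctan_lt_pi_div_two w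
  have h2 := Real.arctan_lt_pi_div_two (w / 3)
  linarith

lemma th_mono : Monotone th := by
  intro x y h
  unfold th
  have h1 := Real.arctan_mono h
  have h2 := Real.arctan_mono (by linarith : x / 3 ≤ y / 3)
  linarith

lemma pf_anti {x y : ℝ} (hx : 0 ≤ x) (h : x ≤ y) : pf y ≤ pf x := by
  unfold pf
  have h1 : x ^ 2 ≤ y ^ 2 := pow_le_pow_left₀ hx h 2
  refine mul_le_mul ?_ ?_ (by positivity) (by positivity)
  · exact Real.rpow_le_rpow_of_nonpos (by positivity) (by linarith) (by norm_num)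
  · exact Real.rpow_le_rpow_of_nonpos (by positivity) (by linarith) (by norm_num)

lemma kap_pos_anti {x y : ℝ} (hx : 0 ≤ x) (h : x ≤ y) : max (kap y) 0 ≤ max (kap x) 0 := by
  rcases le_or_gt (kap y) 0 with h0 | h0
  · rw [max_eq_right h0]
    exact le_max_right _ _
  · have hc : 0 < Real.cos (th y) := by
      rw [kap_eq] at h0
      exact (pos_iff_pos_of_mul_pos h0).1 (pf_pos y)
    have hc2 : Real.cos (th y) ≤ Real.cos (th x) :=
      Real.cos_le_cos_of_nonneg_of_le_pi (th_nonneg hx) (th_lt y).le (th_mono h)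
    have : kap y ≤ kap x := by
      rw [kap_eq, kap_eq]
      exact mul_le_mul (pf_anti hx h) hc2 hc.le (pf_pos x).le
    exact max_le_max this le_rfl

/-- fourth root notation -/
lemma rtX (X : ℝ) (h0 : 0 < X) : ∃ b : ℝ, 0 < b ∧ b ^ 4 = X ∧ Real.sqrt X = b ^ 2 ∧
    X ^ (-(3 / 4) : ℝ) = (b ^ 3)⁻¹ ∧ X ^ (-(1 / 4) : ℝ) = b⁻¹ ∧
    X ^ (-(1 / 4) - 1 : ℝ) = (b ^ 5)⁻¹ ∧ X ^ (1 / 4 : ℝ) = b ∧
    X ^ (1 / 4 - 1 : ℝ) = (b ^ 3)⁻¹ := by
  refine ⟨X ^ (1 / 4 : ℝ), by positivity, ?_, ?_, ?_, ?_, ?_, rfl, ?_⟩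
  · rw [← Real.rpow_natCast, ← Real.rpow_mul h0.le]; norm_num
  · rw [← Real.rpow_natCast, ← Real.rpow_mul h0.le, Real.sqrt_eq_rpow]; norm_num
  · rw [← Real.rpow_natCast, ← Real.rpow_mul h0.le, ← Real.rpow_neg h0.le]; norm_num
  · rw [← Real.rpow_neg h0.le]
  · rw [← Real.rpow_natCast, ← Real.rpow_mul h0.le, ← Real.rpow_neg h0.le]; norm_num
  · rw [← Real.rpow_natCast, ← Real.rpow_mul h0.le, ← Real.rpow_neg h0.le]; norm_num

lemma sqrt3 (w : ℝ) : Real.sqrt (1 + (w / 3) ^ 2) = Real.sqrt (9 + w ^ 2) / 3 := by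
  rw [show 1 + (w / 3) ^ 2 = (9 + w ^ 2) / 3 ^ 2 by ring, Real.sqrt_div (by positivity),
    Real.sqrt_sq (by norm_num)]

lemma sin_two_th (w : ℝ) : ∃ c : ℝ, 0 < c ∧
    2 * Real.sin (th w) * Real.cos (th w) * c = 10 * w - 6 * w ^ 3 := by
  obtain ⟨b, hb, hb4, hbs, -⟩ := rtX (1 + w ^ 2) (by positivity)
  obtain ⟨a, ha, ha4, has, -⟩ := rtX (9 + w ^ 2) (by positivity)
  refine ⟨b ^ 6 * a ^ 2, by positivity, ?_⟩
  rw [← Real.sin_two_mul]
  have e : 2 * th w = 3 * Real.arctan w + Real.arctan (w / 3) := by unfold th; ring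
  rw [e, Real.sin_add, Real.sin_three_mul, Real.cos_three_mul, Real.sin_arctan, Real.cos_arctan,
    Real.sin_arctan, Real.cos_arctan, sqrt3, hbs, has]
  field_simp
  rw [hb4]
  ring

/-- antiderivative of `4 kap` -/
noncomputable def QQ (w : ℝ) : ℝ :=
  4 * (9 + w ^ 2) ^ (1 / 4 : ℝ) * (1 + w ^ 2) ^ (-(1 / 4) : ℝ) *
    Real.sin ((Real.arctan w - Real.arctan (w / 3)) / 2)

lemma hasDerivAt_QQ (w : ℝ) : HasDerivAt QQ (4 * kap w) w := by
  have h1 : HasDerivAt (fun w : ℝ => (9 + w ^ 2) ^ (1 / 4 : ℝ))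
      ((2 * w) * (1 / 4) * (9 + w ^ 2) ^ (1 / 4 - 1 : ℝ)) w := by
    have : HasDerivAt (fun w : ℝ => 9 + w ^ 2) (2 * w) w := by
      have := ((hasDerivAt_id' w).fun_pow 2).const_add 9
      refine this.congr_deriv ?_
      push_cast; ring
    exact this.rpow_const (Or.inl (by positivity))
  have h2 : HasDerivAt (fun w : ℝ => (1 + w ^ 2) ^ (-(1 / 4) : ℝ))
      ((2 * w) * (-(1 / 4)) * (1 + w ^ 2) ^ (-(1 / 4) - 1 : ℝ)) w := by
    have : HasDerivAt (fun w : ℝ => 1 + w ^ 2) (2 * w) w := by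
      have := ((hasDerivAt_id' w).fun_pow 2).const_add 1
      refine this.congr_deriv ?_
      push_cast; ring
    exact this.rpow_const (Or.inl (by positivity))
  have h3 : HasDerivAt (fun w : ℝ => (Real.arctan w - Real.arctan (w / 3)) / 2)
      ((1 / (1 + w ^ 2) - 1 / (1 + (w / 3) ^ 2) * (1 / 3)) / 2) w := by
    have h4 : HasDerivAt (fun w : ℝ => w / 3) (1 / 3) w := (hasDerivAt_id' w).div_const 3
    exact ((hasDerivAt_id' w).arctan.fun_sub h4.arctan).div_const 2 |>.congr_deriv (by ring)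
  have h5 := ((h1.const_mul 4).fun_mul h2).fun_mul h3.sin
  refine h5.congr_deriv ?_
  obtain ⟨b, hb, hb4, hbs, hb3, hb1, hb5, -, -⟩ := rtX (1 + w ^ 2) (by positivity)
  obtain ⟨a, ha, ha4, has, -, ha1, -, ha14, ha3⟩ := rtX (9 + w ^ 2) (by positivity)
  unfold kap
  have e : 3 / 2 * Real.arctan w + 1 / 2 * Real.arctan (w / 3) =
      (Real.arctan w - Real.arctan (w / 3)) / 2 + (Real.arctan w + Real.arctan (w / 3)) := by ring
  rw [e, Real.cos_add, Real.sin_add (Real.arctan w), Real.cos_add (Real.arctan w),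
    Real.sin_arctan, Real.cos_arctan, Real.sin_arctan, Real.cos_arctan, sqrt3, hbs, has, hb3, hb1,
    hb5, ha1, ha14, ha3]
  set S := Real.sin ((Real.arctan w - Real.arctan (w / 3)) / 2)
  set C := Real.cos ((Real.arctan w - Real.arctan (w / 3)) / 2)
  have e2 : 1 + (w / 3) ^ 2 = a ^ 4 / 9 := by rw [ha4]; ring
  rw [e2, ← hb4]
  field_simp
  rw [hb4, ha4]
  ring

lemma QQ_zero : QQ 0 = 0 := by simp [QQ]

lemma QQ_nonneg {w : ℝ} (hw : 0 ≤ w) : 0 ≤ QQ w := by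
  unfold QQ
  have h1 : Real.arctan (w / 3) ≤ Real.arctan w := Real.arctan_mono (by linarith)
  have h2 := Real.arctan_lt_pi_div_two w
  have h3 : 0 ≤ Real.arctan (w / 3) := Real.arctan_nonneg.2 (by positivity)
  have h4 : 0 ≤ Real.sin ((Real.arctan w - Real.arctan (w / 3)) / 2) := by
    apply Real.sin_nonneg_of_nonneg_of_le_pi
    · linarith
    · linarith [Real.pi_pos]
  positivity

lemma abs_QQ_le (w : ℝ) : |QQ w| ≤ 4 * (9 : ℝ) ^ (1 / 4 : ℝ) := by
  unfold QQ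
  rw [abs_mul]
  have h1 : |4 * (9 + w ^ 2) ^ (1 / 4 : ℝ) * (1 + w ^ 2) ^ (-(1 / 4) : ℝ)| ≤
      4 * (9 : ℝ) ^ (1 / 4 : ℝ) := by
    rw [abs_of_pos (by positivity), Real.rpow_neg (by positivity), ← div_eq_mul_inv,
      div_le_iff₀ (by positivity), mul_assoc, ← Real.mul_rpow (by positivity) (by positivity)]
    gcongr
    nlinarith [sq_nonneg w]
  calc _ ≤ (4 * (9 : ℝ) ^ (1 / 4 : ℝ)) * 1 :=
        mul_le_mul h1 (Real.abs_sin_le_one _) (abs_nonneg _) (by positivity)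
    _ = _ := mul_one _

lemma QQ_cont : Continuous QQ :=
  continuous_iff_continuousAt.2 fun w => (hasDerivAt_QQ w).continuousAt

lemma kap_nonneg {w : ℝ} (hw : 0 < w) (h : w ^ 2 ≤ 5 / 3) : 0 ≤ kap w := by
  obtain ⟨c, hc, hce⟩ := sin_two_th w
  have hs : 0 < Real.sin (th w) := Real.sin_pos_of_pos_of_lt_pi (th_pos hw) (th_lt w)
  rw [kap_eq]
  refine mul_nonneg (pf_pos w).le ?_
  by_contra hneg
  push Not at hneg
  have h1 : 0 ≤ 10 * w - 6 * w ^ 3 := by nlinarith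
  have h2 : 2 * Real.sin (th w) * Real.cos (th w) * c < 0 := by
    have := mul_pos hs hc
    nlinarith
  linarith

lemma kap_nonpos {w : ℝ} (hw : 0 < w) (h : 5 / 3 ≤ w ^ 2) : kap w ≤ 0 := by
  obtain ⟨c, hc, hce⟩ := sin_two_th w
  have hs : 0 < Real.sin (th w) := Real.sin_pos_of_pos_of_lt_pi (th_pos hw) (th_lt w)
  rw [kap_eq]
  refine mul_nonpos_of_nonneg_of_nonpos (pf_pos w).le ?_
  by_contra hneg
  push Not at hneg
  have h1 : 10 * w - 6 * w ^ 3 ≤ 0 := by nlinarith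
  have h2 : 0 < 2 * Real.sin (th w) * Real.cos (th w) * c := by positivity
  linarith

end Pool.Agent.R963.TS
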