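import Pool.Agent.R963.TS.Kap

/-!
# Laplace type integrals
-/

set_option autoImplicit false

open MeasureTheory Filter Topology Set

namespace Pool.Agent.R963.TS

noncomputable def uu (x : ℝ) : ℝ := Real.cosh x - 1

lemma uu_nonneg (x : ℝ) : 0 ≤ uu x := by unfold uu; linarith [Real.one_le_cosh x]

lemma uu_cont : Continuous uu := by unfold uu; fun_prop

lemma uu_ge {x : ℝ} (hx : 0 ≤ x) : x - 1 ≤ uu x := by
  unfold uu
  have h1 := (Real.sinh_lt_cosh x).le
  have h2 := Real.self_le_sinh_iff.2 hx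
  linarith

lemma uu_mono {x y : ℝ} (hx : 0 ≤ x) (h : x ≤ y) : uu x ≤ uu y := by
  unfold uu
  have : Real.cosh x ≤ Real.cosh y := by
    rw [Real.cosh_le_cosh, abs_of_nonneg hx, abs_of_nonneg (hx.trans h)]
    exact h
  linarith

noncomputable def LL (g : ℝ → ℝ) (j : ℕ) (t : ℝ) : ℝ :=
  ∫ x in Ioi (0 : ℝ), g x * uu x ^ j * Real.exp (-(t * uu x))

structure Gd (g : ℝ → ℝ) (M : ℝ) : Prop where
  meas : Measurable g
  bd : ∀ x, 0 ≤ x → |g x| ≤ M * (1 + uu x)
  M0 : 0 ≤ M

noncomputable def bdf (M : ℝ) (j : ℕ) (c x : ℝ) : ℝ :=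
  M * (1 + uu x) * uu x ^ j * Real.exp (-(c * uu x))

lemma pow_exp_le {u c : ℝ} (hu : 0 ≤ u) (hc : 0 < c) (n : ℕ) :
    u ^ n * Real.exp (-(c * u)) ≤ n.factorial / c ^ n := by
  have h1 := Real.pow_div_factorial_le_exp (c * u) (by positivity) n
  rw [Real.exp_neg, ← div_eq_mul_inv, div_le_div_iff₀ (Real.exp_pos _) (by positivity)]
  rw [div_le_iff₀ (by positivity)] at h1
  calc u ^ n * c ^ n = (c * u) ^ n := by ring
    _ ≤ _ := h1
    _ = _ := by ring

lemma bdf_cont (M : ℝ) (j : ℕ) (c : ℝ) : Continuous (bdf M j c) := by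
  unfold bdf
  have := uu_cont
  fun_prop

lemma bd_int {M : ℝ} (hM : 0 ≤ M) (j : ℕ) {c : ℝ} (hc : 0 < c) :
    IntegrableOn (bdf M j c) (Ioi 0) := by
  have hc2 : 0 < c / 2 := by positivity
  set K : ℝ := M * ((j.factorial : ℝ) / (c / 2) ^ j + ((j + 1).factorial : ℝ) / (c / 2) ^ (j + 1))
    * Real.exp (c / 2) with hK
  have h1 : IntegrableOn (fun x : ℝ => K * Real.exp (-(c / 2) * x)) (Ioi 0) :=
    (integrableOn_exp_mul_Ioi (by linarith : -(c / 2) < 0) 0).const_mul K
  refine Integrable.mono' h1 (bdf_cont M j c).aestronglyMeasurable ?_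
  refine (ae_restrict_iff' measurableSet_Ioi).2 (Eventually.of_forall fun x hx => ?_)
  have hx0 : 0 ≤ x := le_of_lt hx
  have hu := uu_nonneg x
  have h2 := pow_exp_le hu hc2 j
  have h3 := pow_exp_le hu hc2 (j + 1)
  have h4 : Real.exp (-(c / 2 * uu x)) ≤ Real.exp (c / 2) * Real.exp (-(c / 2) * x) := by
    rw [← Real.exp_add]
    apply Real.exp_le_exp.2
    nlinarith [uu_ge hx0]
  have h5 : Real.exp (-(c * uu x)) = Real.exp (-(c / 2 * uu x)) * Real.exp (-(c / 2 * uu x)) := by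
    rw [← Real.exp_add]; congr 1; ring
  rw [Real.norm_eq_abs, abs_of_nonneg (by unfold bdf; positivity)]
  unfold bdf
  rw [h5]
  calc M * (1 + uu x) * uu x ^ j * (Real.exp (-(c / 2 * uu x)) * Real.exp (-(c / 2 * uu x)))
      = M * (uu x ^ j * Real.exp (-(c / 2 * uu x)) + uu x ^ (j + 1) * Real.exp (-(c / 2 * uu x)))
        * Real.exp (-(c / 2 * uu x)) := by ring
    _ ≤ M * ((j.factorial : ℝ) / (c / 2) ^ j + ((j + 1).factorial : ℝ) / (c / 2) ^ (j + 1))
        * (Real.exp (c / 2) * Real.exp (-(c / 2) * x)) := by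
        gcongr
    _ = _ := by rw [hK]; ring

lemma Gd.int {g : ℝ → ℝ} {M : ℝ} (H : Gd g M) (j : ℕ) {t : ℝ} (ht : 0 < t) :
    IntegrableOn (fun x => g x * uu x ^ j * Real.exp (-(t * uu x))) (Ioi 0) := by
  refine Integrable.mono' (bd_int H.M0 j ht) ?_ ?_
  · have := uu_cont
    have hg := H.meas
    exact (by fun_prop : Measurable _).aestronglyMeasurable
  · refine (ae_restrict_iff' measurableSet_Ioi).2 (Eventually.of_forall fun x hx => ?_)
    have hx0 : 0 ≤ x := le_of_lt hx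
    have hu := uu_nonneg x
    rw [norm_mul, norm_mul, Real.norm_eq_abs, Real.norm_eq_abs, Real.norm_eq_abs,
      abs_of_nonneg (Real.exp_pos _).le, abs_of_nonneg (pow_nonneg hu j)]
    unfold bdf
    gcongr
    exact H.bd x hx0

lemma Gd.deriv {g : ℝ → ℝ} {M : ℝ} (H : Gd g M) (j : ℕ) {t : ℝ} (ht : 0 < t) :
    HasDerivAt (LL g j) (-(LL g (j + 1) t)) t := by
  have ht2 : 0 < t / 2 := by positivity
  have hs : Ioi (t / 2) ∈ 𝓝 t := Ioi_mem_nhds (by linarith)
  have hmeas : ∀ (s : ℝ) (j : ℕ), AEStronglyMeasurable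
      (fun x => g x * uu x ^ j * Real.exp (-(s * uu x))) (volume.restrict (Ioi (0 : ℝ))) := by
    intro s j
    have := uu_cont
    have hg := H.meas
    exact (by fun_prop : Measurable _).aestronglyMeasurable
  have key := hasDerivAt_integral_of_dominated_loc_of_deriv_le
    (μ := volume.restrict (Ioi (0 : ℝ)))
    (F := fun s x => g x * uu x ^ j * Real.exp (-(s * uu x)))
    (F' := fun s x => -(g x * uu x ^ (j + 1) * Real.exp (-(s * uu x))))
    (bound := bdf M (j + 1) (t / 2)) hs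
    (Eventually.of_forall fun s => hmeas s j) (H.int j ht) (hmeas t (j + 1)).neg ?_
    (bd_int H.M0 (j + 1) ht2) ?_
  · have h2 := key.2
    rw [integral_neg] at h2
    exact h2
  · refine (ae_restrict_iff' measurableSet_Ioi).2 (Eventually.of_forall fun x hx s hs => ?_)
    have hx0 : 0 ≤ x := le_of_lt hx
    have hu := uu_nonneg x
    rw [norm_neg, norm_mul, norm_mul, Real.norm_eq_abs, Real.norm_eq_abs, Real.norm_eq_abs,
      abs_of_nonneg (Real.exp_pos _).le, abs_of_nonneg (pow_nonneg hu _)]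
    unfold bdf
    have h3 : Real.exp (-(s * uu x)) ≤ Real.exp (-(t / 2 * uu x)) := by
      apply Real.exp_le_exp.2
      have : t / 2 < s := hs
      nlinarith
    have h4 := H.bd x hx0
    have hM := H.M0
    gcongr
  · refine Eventually.of_forall fun x s _ => ?_
    have h1 : HasDerivAt (fun s : ℝ => -(s * uu x)) (-(1 * uu x)) s :=
      ((hasDerivAt_id' s).mul_const (uu x)).fun_neg
    have h2 := h1.exp.const_mul (g x * uu x ^ j)
    refine h2.congr_deriv ?_
    ring

lemma Gd.nonneg {g : ℝ → ℝ} (h : ∀ x, 0 < x → 0 ≤ g x) (j : ℕ) (t : ℝ) : 0 ≤ LL g j t := by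
  refine setIntegral_nonneg measurableSet_Ioi fun x hx => ?_
  have := h x hx
  have hu := uu_nonneg x
  positivity

/-- `4 kap (sinh x)` -/
noncomputable def ks (x : ℝ) : ℝ := 4 * kap (Real.sinh x)

noncomputable def qs (x : ℝ) : ℝ := QQ (Real.sinh x) * Real.sinh x

lemma ks_gd : Gd ks 4 := by
  refine ⟨?_, fun x _ => ?_, by norm_num⟩
  · unfold ks
    exact (kap_cont.comp Real.continuous_sinh).measurable.const_mul 4
  · unfold ks
    rw [abs_mul, abs_of_pos (by norm_num : (0 : ℝ) < 4)]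
    have h1 := abs_kap_le_one (Real.sinh x)
    have h2 := uu_nonneg x
    nlinarith

lemma qs_gd : Gd qs (4 * (9 : ℝ) ^ (1 / 4 : ℝ)) := by
  refine ⟨?_, fun x hx => ?_, by positivity⟩
  · unfold qs
    exact ((QQ_cont.comp Real.continuous_sinh).mul Real.continuous_sinh).measurable
  · unfold qs
    rw [abs_mul]
    have h1 := abs_QQ_le (Real.sinh x)
    have h2 : |Real.sinh x| ≤ 1 + uu x := by
      rw [abs_of_nonneg (Real.sinh_nonneg_iff.2 hx)]
      unfold uu
      linarith [Real.sinh_lt_cosh x]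
    exact mul_le_mul h1 h2 (abs_nonneg _) (by positivity)

lemma qs_nonneg {x : ℝ} (hx : 0 ≤ x) : 0 ≤ qs x := by
  unfold qs
  have h := Real.sinh_nonneg_iff.2 hx
  exact mul_nonneg (QQ_nonneg h) h

/-- integration by parts: `a + b = t C` -/
lemma ibp {t : ℝ} (ht : 0 < t) : LL ks 0 t + LL ks 1 t = t * LL qs 0 t := by
  set F : ℝ → ℝ := fun x => QQ (Real.sinh x) * Real.exp (-(t * uu x)) with hF
  have hd : ∀ x ∈ Ici (0 : ℝ), HasDerivAt F
      (ks x * uu x ^ 0 * Real.exp (-(t * uu x)) + ks x * uu x ^ 1 * Real.exp (-(t * uu x)) -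
        t * (qs x * uu x ^ 0 * Real.exp (-(t * uu x)))) x := by
    intro x _
    have h1 : HasDerivAt (fun x => QQ (Real.sinh x)) (4 * kap (Real.sinh x) * Real.cosh x) x :=
      (hasDerivAt_QQ (Real.sinh x)).comp x (Real.hasDerivAt_sinh x)
    have h2 : HasDerivAt (fun x => -(t * uu x)) (-(t * Real.sinh x)) x := by
      unfold uu
      exact (((Real.hasDerivAt_cosh x).sub_const 1).const_mul t).fun_neg
    refine (h1.fun_mul h2.exp).congr_deriv ?_
    unfold ks qs uu
    ring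
  have hint : IntegrableOn (fun x => ks x * uu x ^ 0 * Real.exp (-(t * uu x)) +
      ks x * uu x ^ 1 * Real.exp (-(t * uu x)) -
        t * (qs x * uu x ^ 0 * Real.exp (-(t * uu x)))) (Ioi 0) :=
    ((ks_gd.int 0 ht).add (ks_gd.int 1 ht)).sub ((qs_gd.int 0 ht).const_mul t)
  have hlim : Tendsto F atTop (𝓝 0) := by
    have h1 : Tendsto (fun x : ℝ => (4 * (9 : ℝ) ^ (1 / 4 : ℝ)) * (Real.exp t *
        Real.exp (-(t * x)))) atTop (𝓝 0) := by
      have h2 : Tendsto (fun x : ℝ => Real.exp (-(t * x))) atTop (𝓝 0) := by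
        refine Real.tendsto_exp_neg_atTop_nhds_zero.comp ?_
        exact tendsto_id.const_mul_atTop ht
      simpa using (h2.const_mul (Real.exp t)).const_mul (4 * (9 : ℝ) ^ (1 / 4 : ℝ))
    refine squeeze_zero_norm' ?_ h1
    filter_upwards [eventually_ge_atTop 0] with x hx
    rw [hF, norm_mul, Real.norm_eq_abs, Real.norm_eq_abs, abs_of_pos (Real.exp_pos _)]
    refine mul_le_mul (abs_QQ_le _) ?_ (Real.exp_pos _).le (by positivity)
    rw [← Real.exp_add]
    apply Real.exp_le_exp.2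
    nlinarith [uu_ge hx]
  have h := integral_Ioi_of_hasDerivAt_of_tendsto' hd hint hlim
  have h0 : F 0 = 0 := by simp [hF, QQ_zero]
  rw [h0, sub_zero] at h
  have e1 : ∫ x in Ioi (0 : ℝ), (ks x * uu x ^ 0 * Real.exp (-(t * uu x)) +
      ks x * uu x ^ 1 * Real.exp (-(t * uu x)) -
        t * (qs x * uu x ^ 0 * Real.exp (-(t * uu x)))) =
      LL ks 0 t + LL ks 1 t - t * LL qs 0 t := by
    unfold LL
    rw [integral_sub, integral_add, integral_const_mul]
    · exact ks_gd.int 0 ht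
    · exact ks_gd.int 1 ht
    · exact (ks_gd.int 0 ht).add (ks_gd.int 1 ht)
    · exact (qs_gd.int 0 ht).const_mul t
  linarith

end Pool.Agent.R963.TS
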