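import Pool.Agent.R963.TS.Defs

set_option autoImplicit false
set_option maxHeartbeats 400000

open MeasureTheory Set Filter Topology
open scoped FourierTransform

namespace Pool.Agent.R963.TS

namespace Stj

lemma int_gam {s b : ℝ} (hs : 0 < s) (hb : 0 < b) :
    IntegrableOn (fun x : ℝ => x ^ (s - 1) * Real.exp (-(b * x))) (Ioi 0) := by
  have := integrableOn_rpow_mul_exp_neg_mul_rpow (s := s - 1) (p := 1) (b := b) (by linarith)
    one_pos hb
  simpa using this

/-- Laplace transform of `x^(s-1)`. -/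
noncomputable def lap (s : ℝ) (r : ℂ) : ℂ :=
  ∫ x in Ioi (0 : ℝ), ((x ^ (s - 1) : ℝ) : ℂ) * Complex.exp (-(r * x))

lemma norm_exp_le {r : ℂ} (x : ℝ) : ‖Complex.exp (-(r * x))‖ = Real.exp (-(r.re * x)) := by
  rw [Complex.norm_exp]
  simp

lemma meas (s : ℝ) (r : ℂ) : AEStronglyMeasurable
    (fun x : ℝ => ((x ^ (s - 1) : ℝ) : ℂ) * Complex.exp (-(r * x))) (volume.restrict (Ioi 0)) := by
  have h1 : Measurable fun x : ℝ => ((x ^ (s - 1) : ℝ) : ℂ) := by fun_prop
  have h2 : Continuous fun x : ℝ => Complex.exp (-(r * x)) := by fun_prop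
  exact (h1.aestronglyMeasurable).mul h2.aestronglyMeasurable

lemma lap_int {s : ℝ} (hs : 0 < s) {r : ℂ} (hr : 0 < r.re) :
    IntegrableOn (fun x : ℝ => ((x ^ (s - 1) : ℝ) : ℂ) * Complex.exp (-(r * x))) (Ioi 0) := by
  refine (int_gam hs hr).mono' (meas s r) ?_
  refine (ae_restrict_iff' measurableSet_Ioi).2 (Eventually.of_forall fun x hx => ?_)
  rw [norm_mul, norm_exp_le, Complex.norm_real, Real.norm_eq_abs,
    abs_of_nonneg (Real.rpow_nonneg (le_of_lt hx) _)]

lemma lap_diff {s : ℝ} (hs : 0 < s) {r : ℂ} (hr : 0 < r.re) : DifferentiableAt ℂ (lap s) r := by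
  have key := hasDerivAt_integral_of_dominated_loc_of_deriv_le
    (μ := volume.restrict (Ioi (0 : ℝ))) (𝕜 := ℂ)
    (F := fun (r : ℂ) (x : ℝ) => ((x ^ (s - 1) : ℝ) : ℂ) * Complex.exp (-(r * x)))
    (F' := fun (r : ℂ) (x : ℝ) =>
      ((x ^ (s - 1) : ℝ) : ℂ) * (Complex.exp (-(r * x)) * (-(x : ℂ))))
    (x₀ := r) (s := Metric.ball r (r.re / 2))
    (bound := fun x => x ^ ((s + 1) - 1) * Real.exp (-(r.re / 2 * x)))
    (Metric.ball_mem_nhds _ (by positivity)) ?_ ?_ ?_ ?_ ?_ ?_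
  · exact key.2.differentiableAt
  · exact Eventually.of_forall fun r => meas s r
  · exact lap_int hs hr
  · have h1 : Measurable fun x : ℝ => ((x ^ (s - 1) : ℝ) : ℂ) := by fun_prop
    have h2 : Continuous fun x : ℝ => Complex.exp (-(r * x)) * (-(x : ℂ)) := by fun_prop
    exact (h1.aestronglyMeasurable).mul h2.aestronglyMeasurable
  · refine (ae_restrict_iff' measurableSet_Ioi).2 (Eventually.of_forall fun x hx z hz => ?_)
    have hx' : (0 : ℝ) < x := hx
    rw [norm_mul, norm_mul, norm_exp_le, Complex.norm_real, Real.norm_eq_abs,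
      abs_of_nonneg (Real.rpow_nonneg (le_of_lt hx') _), norm_neg, Complex.norm_real,
      Real.norm_eq_abs, abs_of_pos hx']
    rw [show (s + 1 - 1 : ℝ) = (s - 1) + 1 by ring, Real.rpow_add hx', Real.rpow_one]
    have h3 : r.re / 2 ≤ z.re := by
      have h4 := Complex.abs_re_le_norm (z - r)
      have h5 : ‖z - r‖ < r.re / 2 := by simpa [dist_eq_norm] using hz
      have h6 := (abs_le.1 h4).1
      rw [Complex.sub_re] at h6
      linarith
    have h7 : Real.exp (-(z.re * x)) ≤ Real.exp (-(r.re / 2 * x)) := by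
      apply Real.exp_le_exp.2
      have := mul_le_mul_of_nonneg_right h3 hx'.le
      linarith
    calc x ^ (s - 1) * (Real.exp (-(z.re * x)) * x) = x ^ (s - 1) * x * Real.exp (-(z.re * x)) := by
          ring
      _ ≤ _ := mul_le_mul_of_nonneg_left h7 (by positivity)
  · exact int_gam (by linarith) (by linarith)
  · refine (ae_restrict_iff' measurableSet_Ioi).2 (Eventually.of_forall fun x hx z hz => ?_)
    have h1 : HasDerivAt (fun z : ℂ => -(z * x)) (-(x : ℂ)) z := by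
      have := ((hasDerivAt_id z).mul_const (x : ℂ)).neg
      rw [one_mul] at this
      exact this
    exact h1.cexp.const_mul _

lemma lap_real {s : ℝ} (hs : 0 < s) {r : ℝ} (hr : 0 < r) :
    lap s r = (Real.Gamma s : ℂ) * (r : ℂ) ^ (-(s : ℂ)) := by
  have h := Real.integral_rpow_mul_exp_neg_mul_Ioi hs hr
  have h1 : lap s r = ((∫ t : ℝ in Ioi 0, t ^ (s - 1) * Real.exp (-(r * t)) : ℝ) : ℂ) := by
    rw [lap, ← integral_complex_ofReal]
    refine integral_congr_ae (Eventually.of_forall fun x => ?_)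
    simp
  rw [h1, h, one_div, Real.inv_rpow hr.le, ← Real.rpow_neg hr.le, Complex.ofReal_mul,
    Complex.ofReal_cpow hr.le, mul_comm]
  simp

lemma lap_eq {s : ℝ} (hs : 0 < s) {r : ℂ} (hr : 0 < r.re) :
    lap s r = (Real.Gamma s : ℂ) * r ^ (-(s : ℂ)) := by
  have hopen : IsOpen {z : ℂ | 0 < z.re} := isOpen_lt continuous_const Complex.continuous_re
  have hconv : Convex ℝ {z : ℂ | 0 < z.re} := convex_halfSpace_re_gt 0
  have h1 : AnalyticOnNhd ℂ (lap s) {z : ℂ | 0 < z.re} := by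
    refine DifferentiableOn.analyticOnNhd (fun z hz => ?_) hopen
    exact (lap_diff hs hz).differentiableWithinAt
  have h2 : AnalyticOnNhd ℂ (fun r : ℂ => (Real.Gamma s : ℂ) * r ^ (-(s : ℂ)))
      {z : ℂ | 0 < z.re} := by
    refine DifferentiableOn.analyticOnNhd (fun z hz => ?_) hopen
    have : z ∈ Complex.slitPlane := Or.inl hz
    exact ((differentiableAt_id.cpow_const this).const_mul _).differentiableWithinAt
  refine AnalyticOnNhd.eqOn_of_preconnected_of_frequently_eq h1 h2 hconv.isPreconnected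
    (z₀ := 1) (by simp) ?_ hr
  have hseq : Tendsto (fun n : ℕ => ((1 + 1 / ((n : ℝ) + 1) : ℝ) : ℂ)) atTop (𝓝[≠] 1) := by
    refine tendsto_nhdsWithin_iff.2 ⟨?_, Eventually.of_forall fun n => ?_⟩
    · have h3 : Tendsto (fun n : ℕ => (1 + 1 / ((n : ℝ) + 1) : ℝ)) atTop (𝓝 (1 + 0)) :=
        tendsto_const_nhds.add tendsto_one_div_add_atTop_nhds_zero_nat
      rw [add_zero] at h3
      have h4 := (Complex.continuous_ofReal.tendsto 1).comp h3
      rw [Complex.ofReal_one] at h4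
      exact h4
    · simp only [mem_compl_iff, mem_singleton_iff]
      intro h
      have h5 : (1 + 1 / ((n : ℝ) + 1) : ℝ) = 1 := by exact_mod_cast h
      have h6 : (0 : ℝ) < 1 / ((n : ℝ) + 1) := by positivity
      linarith
  refine hseq.frequently (Frequently.of_forall fun n => ?_)
  exact lap_real hs (by positivity)

lemma norm_sq_add (a w : ℝ) : ‖(a : ℂ) + w * Complex.I‖ = Real.sqrt (a ^ 2 + w ^ 2) := by
  rw [Complex.norm_def, Complex.normSq_add_mul_I]

lemma arg_add {a : ℝ} (ha : 0 < a) (w : ℝ) : ((a : ℂ) + w * Complex.I).arg = Real.arctan (w / a) := by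
  rw [Complex.arg_of_re_nonneg (by simp [ha.le]), Real.arctan_eq_arcsin, norm_sq_add]
  congr 1
  have h1 : Real.sqrt (a ^ 2 + w ^ 2) = a * Real.sqrt (1 + (w / a) ^ 2) := by
    rw [show a ^ 2 + w ^ 2 = a ^ 2 * (1 + (w / a) ^ 2) by field_simp,
      Real.sqrt_mul (by positivity), Real.sqrt_sq ha.le]
  rw [h1]
  have h2 : 0 < Real.sqrt (1 + (w / a) ^ 2) := by positivity
  simp
  field_simp

lemma log_re {a : ℝ} (ha : 0 < a) (w : ℝ) :
    Real.log ‖(a : ℂ) + w * Complex.I‖ = 1 / 2 * Real.log (a ^ 2 + w ^ 2) := by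
  rw [norm_sq_add, Real.log_sqrt (by positivity)]
  ring

lemma kap_eq (w : ℝ) : (((1 : ℝ) : ℂ) + w * Complex.I) ^ (-((3 / 2 : ℝ) : ℂ)) *
    (((3 : ℝ) : ℂ) + w * Complex.I) ^ (-((1 / 2 : ℝ) : ℂ)) =
      Complex.exp (((-(3 / 4) * Real.log (1 + w ^ 2) + -(1 / 4) * Real.log (9 + w ^ 2) : ℝ) : ℂ) +
        ((-(3 / 2 * Real.arctan w + 1 / 2 * Real.arctan (w / 3)) : ℝ) : ℂ) * Complex.I) := by
  have h1 : (((1 : ℝ) : ℂ) + w * Complex.I) ≠ 0 := by
    intro h
    have := congrArg Complex.re h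
    simp at this
  have h3 : (((3 : ℝ) : ℂ) + w * Complex.I) ≠ 0 := by
    intro h
    have := congrArg Complex.re h
    simp at this
  rw [Complex.cpow_def_of_ne_zero h1, Complex.cpow_def_of_ne_zero h3, ← Complex.exp_add]
  congr 1
  rw [Complex.log, Complex.log, log_re one_pos, log_re (by norm_num), arg_add one_pos,
    arg_add (by norm_num)]
  norm_num
  push_cast
  ring

lemma re_add_ofReal_mul_I' (x y : ℝ) : ((x : ℂ) + (y : ℂ) * Complex.I).re = x := by
  simp

lemma im_add_ofReal_mul_I' (x y : ℝ) : ((x : ℂ) + (y : ℂ) * Complex.I).im = y := by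
  simp

lemma kap_re (w : ℝ) : ((((1 : ℝ) : ℂ) + w * Complex.I) ^ (-((3 / 2 : ℝ) : ℂ)) *
    (((3 : ℝ) : ℂ) + w * Complex.I) ^ (-((1 / 2 : ℝ) : ℂ))).re = kap w := by
  rw [kap_eq, Complex.exp_re, kap]
  rw [Real.rpow_def_of_pos (by positivity), Real.rpow_def_of_pos (by positivity), ← Real.exp_add]
  rw [re_add_ofReal_mul_I', im_add_ofReal_mul_I', ← Real.cos_neg]
  congr 1
  · ring_nf
  · congr 1
    ring

/-- the two-sided exponential -/
lemma int_exp_abs {v : ℝ} (hv : 0 < v) :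
    Integrable (fun t : ℝ => ((Real.exp (-(v * |t|)) : ℝ) : ℂ)) := by
  suffices h : Integrable (fun t : ℝ => Real.exp (-(v * |t|))) from h.ofReal
  rw [← integrableOn_univ, ← Iic_union_Ioi (a := (0 : ℝ))]
  refine IntegrableOn.union ?_ ?_
  · refine (integrableOn_exp_mul_Iic hv 0).congr_fun (fun x hx => ?_) measurableSet_Iic
    have hx' : x ≤ 0 := hx
    simp only [abs_of_nonpos hx']
    ring_nf
  · refine (integrableOn_exp_mul_Ioi (a := -v) (by linarith) 0).congr_fun (fun x hx => ?_)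
      measurableSet_Ioi
    have hx' : 0 < x := hx
    simp only [abs_of_pos hx']
    ring_nf

lemma fourier_exp_abs {v : ℝ} (hv : 0 < v) (ξ : ℝ) :
    𝓕 (fun t : ℝ => ((Real.exp (-(v * |t|)) : ℝ) : ℂ)) ξ =
      ((2 * v / (v ^ 2 + (2 * Real.pi * ξ) ^ 2) : ℝ) : ℂ) := by
  rw [Real.fourier_real_eq_integral_exp_smul]
  have hi : Integrable (fun t : ℝ => Complex.exp (↑(-2 * Real.pi * t * ξ) * Complex.I) •
      ((Real.exp (-(v * |t|)) : ℝ) : ℂ)) := by
    refine (int_exp_abs hv).norm.mono' (by fun_prop : Continuous _).aestronglyMeasurable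
      (Eventually.of_forall fun t => ?_)
    rw [norm_smul, Complex.norm_exp_ofReal_mul_I, one_mul]
  rw [← integral_add_compl (measurableSet_Iic (a := (0 : ℝ))) hi, compl_Iic]
  have e1 : ∫ t in Iic (0 : ℝ), Complex.exp (↑(-2 * Real.pi * t * ξ) * Complex.I) •
      ((Real.exp (-(v * |t|)) : ℝ) : ℂ) =
      ∫ t in Iic (0 : ℝ), Complex.exp (((v : ℂ) - 2 * Real.pi * ξ * Complex.I) * t) := by
    refine setIntegral_congr_fun measurableSet_Iic (fun t ht => ?_)
    have ht' : t ≤ 0 := ht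
    simp only [abs_of_nonpos ht', smul_eq_mul]
    rw [Complex.ofReal_exp, ← Complex.exp_add]
    congr 1
    push_cast
    ring
  have e2 : ∫ t in Ioi (0 : ℝ), Complex.exp (↑(-2 * Real.pi * t * ξ) * Complex.I) •
      ((Real.exp (-(v * |t|)) : ℝ) : ℂ) =
      ∫ t in Ioi (0 : ℝ), Complex.exp ((-(v : ℂ) - 2 * Real.pi * ξ * Complex.I) * t) := by
    refine setIntegral_congr_fun measurableSet_Ioi (fun t ht => ?_)
    have ht' : 0 < t := ht
    simp only [abs_of_pos ht', smul_eq_mul]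
    rw [Complex.ofReal_exp, ← Complex.exp_add]
    congr 1
    push_cast
    ring
  rw [e1, e2, integral_exp_mul_complex_Iic (by simp [hv]), integral_exp_mul_complex_Ioi (by simp [hv])]
  have h1 : (v : ℂ) - 2 * Real.pi * ξ * Complex.I ≠ 0 := by
    intro h
    have := congrArg Complex.re h
    simp at this
    linarith
  have h2 : -(v : ℂ) - 2 * Real.pi * ξ * Complex.I ≠ 0 := by
    intro h
    have := congrArg Complex.re h
    simp at this
    linarith
  have h3 : ((v : ℂ) ^ 2 + (2 * Real.pi * ξ) ^ 2) = ((v : ℂ) - 2 * Real.pi * ξ * Complex.I) *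
      (-(-(v : ℂ) - 2 * Real.pi * ξ * Complex.I)) := by
    ring_nf
    simp only [Complex.I_sq]
    ring
  push_cast
  simp only [mul_zero, Complex.exp_zero]
  rw [h3]
  field_simp
  ring

lemma int_cauchy {v : ℝ} (hv : 0 < v) : Integrable (fun w : ℝ => (v ^ 2 + w ^ 2)⁻¹) := by
  have h := (integrable_inv_one_add_sq.comp_mul_left' (R := v⁻¹) (by positivity)).const_mul
    ((v ^ 2)⁻¹)
  refine h.congr (Eventually.of_forall fun w => ?_)
  simp only
  rw [← mul_inv]
  congr 1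
  field_simp

lemma int_cauchy2 {v : ℝ} (hv : 0 < v) :
    Integrable (fun ξ : ℝ => 2 * v / (v ^ 2 + (2 * Real.pi * ξ) ^ 2)) := by
  have h := ((int_cauchy hv).comp_mul_left' (R := 2 * Real.pi) (by positivity)).const_mul (2 * v)
  exact h.congr (Eventually.of_forall fun w => by simp [div_eq_mul_inv])

/-- product measure on the quadrant -/
noncomputable def μ2 : Measure (ℝ × ℝ) :=
  (volume.restrict (Ioi (0 : ℝ))).prod (volume.restrict (Ioi (0 : ℝ)))

/-- the density -/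
noncomputable def dens (p : ℝ × ℝ) : ℝ :=
  (p.1 ^ ((3 / 2 : ℝ) - 1) * Real.exp (-(1 * p.1))) *
    (p.2 ^ ((1 / 2 : ℝ) - 1) * Real.exp (-(3 * p.2)))

instance : SFinite μ2 := by unfold μ2; infer_instance

lemma pos_ae : ∀ᵐ p ∂μ2, 0 < p.1 ∧ 0 < p.2 := by
  rw [μ2, Measure.prod_restrict]
  filter_upwards [ae_restrict_mem (measurableSet_Ioi.prod measurableSet_Ioi)] with p hp
  exact hp

lemma dens_int : Integrable dens μ2 := by
  have h1 : Integrable (fun x : ℝ => x ^ ((3 / 2 : ℝ) - 1) * Real.exp (-(1 * x)))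
      (volume.restrict (Ioi (0 : ℝ))) := int_gam (by norm_num) (by norm_num)
  have h2 : Integrable (fun x : ℝ => x ^ ((1 / 2 : ℝ) - 1) * Real.exp (-(3 * x)))
      (volume.restrict (Ioi (0 : ℝ))) := int_gam (by norm_num) (by norm_num)
  exact h1.mul_prod h2

lemma gamma_kap (w : ℝ) : Real.Gamma (3 / 2) * Real.Gamma (1 / 2) * kap w =
      ∫ p, dens p * Real.cos (w * (p.1 + p.2)) ∂μ2 := by
  have a1 : 0 < (((1 : ℝ) : ℂ) + w * Complex.I).re := by simp
  have a3 : 0 < (((3 : ℝ) : ℂ) + w * Complex.I).re := by simp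
  have h1 := lap_eq (s := 3 / 2) (by norm_num) a1
  have h2 := lap_eq (s := 1 / 2) (by norm_num) a3
  have i1 := lap_int (s := 3 / 2) (by norm_num) a1
  have i2 := lap_int (s := 1 / 2) (by norm_num) a3
  have h3 : lap (3 / 2) (((1 : ℝ) : ℂ) + w * Complex.I) *
      lap (1 / 2) (((3 : ℝ) : ℂ) + w * Complex.I) =
      ((Real.Gamma (3 / 2) * Real.Gamma (1 / 2) : ℝ) : ℂ) *
        ((((1 : ℝ) : ℂ) + w * Complex.I) ^ (-((3 / 2 : ℝ) : ℂ)) *
      (((3 : ℝ) : ℂ) + w * Complex.I) ^ (-((1 / 2 : ℝ) : ℂ))) := by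
    rw [h1, h2]
    push_cast
    ring
  have h4 := congrArg Complex.re h3
  rw [Complex.re_ofReal_mul, kap_re] at h4
  rw [← h4, lap, lap, ← integral_prod_mul]
  have i3 := i1.mul_prod i2
  have h5 := integral_re i3
  rw [RCLike.re_to_complex] at h5
  rw [← h5]
  refine integral_congr_ae (Eventually.of_forall fun p => ?_)
  simp only [RCLike.re_to_complex, dens]
  have h6 : ((p.1 ^ ((3 / 2 : ℝ) - 1) : ℝ) : ℂ) *
      Complex.exp (-((((1 : ℝ) : ℂ) + w * Complex.I) * p.1)) *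
      (((p.2 ^ ((1 / 2 : ℝ) - 1) : ℝ) : ℂ) *
      Complex.exp (-((((3 : ℝ) : ℂ) + w * Complex.I) * p.2))) =
      ((p.1 ^ ((3 / 2 : ℝ) - 1) * p.2 ^ ((1 / 2 : ℝ) - 1) : ℝ) : ℂ) *
      Complex.exp (((-(1 * p.1) + -(3 * p.2) : ℝ) : ℂ) +
        ((-(w * (p.1 + p.2)) : ℝ) : ℂ) * Complex.I) := by
    rw [mul_mul_mul_comm, ← Complex.exp_add]
    push_cast
    congr 2
    ring
  rw [h6, Complex.re_ofReal_mul, Complex.exp_re, re_add_ofReal_mul_I', im_add_ofReal_mul_I',
    Real.cos_neg, Real.exp_add]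
  ring

lemma int_swap {v : ℝ} (hv : 0 < v) : Integrable (Function.uncurry fun (w : ℝ) (p : ℝ × ℝ) =>
    dens p * (Real.cos (w * (p.1 + p.2)) / (v ^ 2 + w ^ 2))) (volume.prod μ2) := by
  have h := (int_cauchy hv).mul_prod dens_int
  refine h.mono ?_ (Eventually.of_forall fun q => ?_)
  · have h2 : AEStronglyMeasurable (fun q : ℝ × (ℝ × ℝ) => Real.cos (q.1 * (q.2.1 + q.2.2)))
        ((volume : Measure ℝ).prod μ2) :=
      (by fun_prop : Continuous _).aestronglyMeasurable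
    refine (h2.mul h.1).congr (Eventually.of_forall fun q => ?_)
    simp only [Function.uncurry, Pi.mul_apply]
    ring
  · simp only [Function.uncurry]
    rw [norm_mul, norm_mul, norm_div, mul_comm, div_eq_mul_inv, norm_inv]
    refine mul_le_mul_of_nonneg_right ?_ (norm_nonneg _)
    rw [Real.norm_eq_abs]
    exact mul_le_of_le_one_left (by positivity) (Real.abs_cos_le_one _)

lemma final_int {v : ℝ} (hv : 0 < v) : ∫ p, dens p * Real.exp (-(v * (p.1 + p.2))) ∂μ2 =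
    Real.Gamma (3 / 2) * Real.Gamma (1 / 2) *
      ((1 + v) ^ (-(3 / 2) : ℝ) * (3 + v) ^ (-(1 / 2) : ℝ)) := by
  have e1 := Real.integral_rpow_mul_exp_neg_mul_Ioi (a := 3 / 2) (r := 1 + v) (by norm_num)
    (by linarith)
  have e2 := Real.integral_rpow_mul_exp_neg_mul_Ioi (a := 1 / 2) (r := 3 + v) (by norm_num)
    (by linarith)
  have h1 : ∀ p : ℝ × ℝ, dens p * Real.exp (-(v * (p.1 + p.2))) =
      (p.1 ^ ((3 / 2 : ℝ) - 1) * Real.exp (-((1 + v) * p.1))) *
      (p.2 ^ ((1 / 2 : ℝ) - 1) * Real.exp (-((3 + v) * p.2))) := by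
    intro p
    rw [dens, show -(v * (p.1 + p.2)) = -(v * p.1) + -(v * p.2) by ring, Real.exp_add,
      show -((1 + v) * p.1) = -(1 * p.1) + -(v * p.1) by ring, Real.exp_add,
      show -((3 + v) * p.2) = -(3 * p.2) + -(v * p.2) by ring, Real.exp_add]
    ring
  simp_rw [h1]
  rw [μ2, integral_prod_mul (fun x : ℝ => x ^ ((3 / 2 : ℝ) - 1) * Real.exp (-((1 + v) * x)))
    (fun x : ℝ => x ^ ((1 / 2 : ℝ) - 1) * Real.exp (-((3 + v) * x))), e1, e2, one_div, one_div,
    Real.inv_rpow (by linarith), Real.inv_rpow (by linarith), ← Real.rpow_neg (by linarith),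
    ← Real.rpow_neg (by linarith)]
  ring

end Stj

open Stj in
theorem cauchy_ft (v X : ℝ) (hv : 0 < v) (hX : 0 ≤ X) :
    ∫ w : ℝ, Real.cos (w * X) / (v ^ 2 + w ^ 2) = Real.pi / v * Real.exp (-(v * X)) := by
  have hF : 𝓕 (fun t : ℝ => ((Real.exp (-(v * |t|)) : ℝ) : ℂ)) =
      fun ξ : ℝ => ((2 * v / (v ^ 2 + (2 * Real.pi * ξ) ^ 2) : ℝ) : ℂ) :=
    funext (fourier_exp_abs hv)
  have hinv := Continuous.fourierInv_fourier_eq (f := fun t : ℝ =>
    ((Real.exp (-(v * |t|)) : ℝ) : ℂ)) (by fun_prop) (int_exp_abs hv)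
    (by rw [hF]; exact (int_cauchy2 hv).ofReal)
  rw [hF] at hinv
  have h1 := congrFun hinv X
  rw [Real.fourierInv_eq'] at h1
  have h2 : Integrable (fun ξ : ℝ => Complex.exp (↑(2 * Real.pi * inner ℝ ξ X) * Complex.I) •
      ((2 * v / (v ^ 2 + (2 * Real.pi * ξ) ^ 2) : ℝ) : ℂ)) := by
    refine (int_cauchy2 hv).norm.mono' ?_ (Eventually.of_forall fun t => ?_)
    · have hh : Integrable (fun ξ : ℝ => ((2 * v / (v ^ 2 + (2 * Real.pi * ξ) ^ 2) : ℝ) : ℂ)) :=
        (int_cauchy2 hv).ofReal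
      have h0 : AEStronglyMeasurable (fun ξ : ℝ =>
          Complex.exp (↑(2 * Real.pi * inner ℝ ξ X) * Complex.I)) volume :=
        (by fun_prop : Continuous _).aestronglyMeasurable
      exact h0.mul hh.1
    · rw [norm_smul, Complex.norm_exp_ofReal_mul_I, one_mul, Complex.norm_real]
  have h3 := congrArg Complex.re h1
  have h3' := integral_re h2
  rw [RCLike.re_to_complex, h3] at h3'
  clear h3
  have h3 := h3'
  have h4 : ∀ ξ : ℝ, RCLike.re (Complex.exp (↑(2 * Real.pi * inner ℝ ξ X) * Complex.I) •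
      ((2 * v / (v ^ 2 + (2 * Real.pi * ξ) ^ 2) : ℝ) : ℂ)) =
      (fun w : ℝ => 2 * v * (Real.cos (w * X) / (v ^ 2 + w ^ 2))) (2 * Real.pi * ξ) := by
    intro ξ
    rw [RCLike.re_to_complex, smul_eq_mul, Complex.re_mul_ofReal, Complex.exp_ofReal_mul_I_re]
    simp only [RCLike.inner_apply, conj_trivial]
    rw [show 2 * Real.pi * (X * ξ) = 2 * Real.pi * ξ * X by ring]
    ring
  simp_rw [h4] at h3
  rw [Measure.integral_comp_mul_left (fun w : ℝ => 2 * v * (Real.cos (w * X) / (v ^ 2 + w ^ 2)))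
    (2 * Real.pi)] at h3
  rw [integral_const_mul, abs_of_pos (by positivity), smul_eq_mul] at h3
  simp only [abs_of_nonneg hX, RCLike.re_to_complex, Complex.ofReal_re] at h3
  have hpi := Real.pi_pos
  rw [← h3]
  generalize (∫ a : ℝ, Real.cos (a * X) / (v ^ 2 + a ^ 2)) = J
  field_simp

open Stj in
theorem kap_stieltjes (v : ℝ) (hv : 0 < v) : ∫ w : ℝ, kap w / (v ^ 2 + w ^ 2) =
    Real.pi / v * ((1 + v) ^ (-(3 / 2) : ℝ) * (3 + v) ^ (-(1 / 2) : ℝ)) := by
  have hG : Real.Gamma (3 / 2) * Real.Gamma (1 / 2) ≠ 0 :=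
    mul_ne_zero (Real.Gamma_pos_of_pos (by norm_num)).ne' (Real.Gamma_pos_of_pos (by norm_num)).ne'
  have h1 : ∀ w : ℝ, Real.Gamma (3 / 2) * Real.Gamma (1 / 2) * kap w =
      ∫ p, dens p * Real.cos (w * (p.1 + p.2)) ∂μ2 := gamma_kap
  have h2 : ∀ w : ℝ, Real.Gamma (3 / 2) * Real.Gamma (1 / 2) * (kap w / (v ^ 2 + w ^ 2)) =
      ∫ p, dens p * (Real.cos (w * (p.1 + p.2)) / (v ^ 2 + w ^ 2)) ∂μ2 := by
    intro w
    rw [← mul_div_assoc, h1, ← integral_div]
    simp_rw [mul_div_assoc]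
  have h3 : Real.Gamma (3 / 2) * Real.Gamma (1 / 2) * ∫ w : ℝ, kap w / (v ^ 2 + w ^ 2) =
      Real.Gamma (3 / 2) * Real.Gamma (1 / 2) *
        (Real.pi / v * ((1 + v) ^ (-(3 / 2) : ℝ) * (3 + v) ^ (-(1 / 2) : ℝ))) := by
    rw [← integral_const_mul]
    simp_rw [h2]
    rw [integral_integral_swap (int_swap hv)]
    have h4 : ∀ᵐ p ∂μ2, ∫ w : ℝ, dens p * (Real.cos (w * (p.1 + p.2)) / (v ^ 2 + w ^ 2)) =
        Real.pi / v * (dens p * Real.exp (-(v * (p.1 + p.2)))) := by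
      filter_upwards [pos_ae] with p hp
      rw [integral_const_mul, cauchy_ft v _ hv (by linarith [hp.1, hp.2])]
      ring
    rw [integral_congr_ae h4, integral_const_mul, final_int hv]
    ring
  exact mul_left_cancel₀ hG h3

end Pool.Agent.R963.TS
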