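import Mathlib
import Pool.Agent.H506R3.Mag.Boch2

set_option autoImplicit false
set_option linter.unusedSectionVars false

/-!
# The Wendland function `(1 - |t|)_+^3 (1 + 3 |t|)` is a characteristic function
(task TS-A of MP_f86038_pr)
-/

namespace Pool.Agent.R963.TS

open MeasureTheory Filter Topology Set
open Pool.Agent.H506R3.Mag
open scoped FourierTransform RealInnerProductSpace NNReal

lemma ct_int_nn {f : ℝ → ℝ} (h0 : ∀ ξ, 0 ≤ ct f ξ) (hc : Continuous f) (hb : ∀ x, |f x| ≤ 1)
    (hi : Integrable f) (he : ∀ x, f (-x) = f x) : Integrable (ct f) := by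
  have hcc := ct_cont hc hi he
  have hbd : ∀ ξ, |ct f ξ| ≤ ∫ x, |f x| := by
    intro ξ
    have h1 : ‖ct f ξ‖ ≤ ∫ x, |f x| := by
      unfold ct
      refine norm_integral_le_of_norm_le hi.abs (Filter.Eventually.of_forall fun x => ?_)
      rw [norm_mul, Real.norm_eq_abs, Real.norm_eq_abs]
      exact mul_le_of_le_one_right (abs_nonneg _) (Real.abs_cos_le_one _)
    exact h1
  refine ⟨hcc.aestronglyMeasurable, ?_⟩
  have hlim : ∀ ξ : ℝ, Tendsto (fun k : ℕ => gau (1 / ((k : ℝ) + 1)) ξ * ct f ξ) atTop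
      (𝓝 (ct f ξ)) := by
    intro ξ
    have h1 : Tendsto (fun k : ℕ => gau ((1 / ((k : ℝ) + 1))) ξ) atTop (𝓝 1) := by
      have h2 : Tendsto (fun k : ℕ => -((1 / ((k : ℝ) + 1))) * ‖ξ‖ ^ 2) atTop
          (𝓝 (-(0) * ‖ξ‖ ^ 2)) :=
        ((tendsto_one_div_add_atTop_nhds_zero_nat).neg).mul_const _
      have h3 := (Real.continuous_exp.tendsto _).comp h2
      simpa [gau, Function.comp_def] using h3
    simpa using h1.mul_const (ct f ξ)
  have hk : ∀ k : ℕ, ∫⁻ ξ, ENNReal.ofReal (gau (1 / ((k : ℝ) + 1)) ξ * ct f ξ) ≤ 1 := by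
    intro k
    have hpos : (0 : ℝ) < 1 / ((k : ℝ) + 1) := by positivity
    have hint : Integrable (fun ξ => gau (1 / ((k : ℝ) + 1)) ξ * ct f ξ) := by
      refine ((gau_int (V := ℝ) hpos).mul_const (∫ x, |f x|)).mono
        ((gau_cont _).mul hcc).aestronglyMeasurable (Filter.Eventually.of_forall fun ξ => ?_)
      rw [norm_mul, norm_mul]
      refine mul_le_mul_of_nonneg_left ?_ (norm_nonneg _)
      exact (hbd ξ).trans (le_abs_self _)
    rw [← ofReal_integral_eq_lintegral_ofReal hint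
      (Filter.Eventually.of_forall fun ξ => mul_nonneg (gau_pos _ _).le (h0 ξ))]
    rw [ENNReal.ofReal_le_one]
    exact gau_ct_le hc hb hi he hpos
  have h1 : ∫⁻ ξ, ‖ct f ξ‖ₑ ≤ 1 := by
    have h2 : ∀ ξ, ‖ct f ξ‖ₑ =
        liminf (fun k : ℕ => ENNReal.ofReal (gau (1 / ((k : ℝ) + 1)) ξ * ct f ξ)) atTop := by
      intro ξ
      rw [Real.enorm_eq_ofReal (h0 ξ)]
      exact ((ENNReal.tendsto_ofReal (hlim ξ)).liminf_eq).symm
    simp_rw [h2]
    refine (lintegral_liminf_le fun k => ?_).trans ?_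
    · exact ((gau_cont _).mul hcc).measurable.ennreal_ofReal
    · refine liminf_le_of_frequently_le' (Filter.Frequently.of_forall fun k => hk k)
  exact lt_of_le_of_lt h1 ENNReal.one_lt_top

/-- **Bochner's theorem** for continuous integrable even functions. -/
theorem bochner_nn {f : ℝ → ℝ} (hnn : ∀ ξ, 0 ≤ ct f ξ) (hc : Continuous f) (hb : ∀ x, |f x| ≤ 1)
    (hi : Integrable f) (he : ∀ x, f (-x) = f x) (h0 : f 0 = 1) :
    ∃ P : Measure ℝ, IsProbabilityMeasure P ∧ ∀ x, charFun P x = (f x : ℂ) := by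
  have hcc := ct_cont hc hi he
  have hci := ct_int_nn hnn hc hb hi he
  have hF : 𝓕 (fun x => (f x : ℂ)) = fun ξ => (ct f ξ : ℂ) := funext (fourier_eq_ct hc hi he)
  have hinv : 𝓕⁻ (fun ξ => (ct f ξ : ℂ)) = fun x => (f x : ℂ) := by
    rw [← hF]
    refine Continuous.fourierInv_fourier_eq (by fun_prop) hi.ofReal ?_
    rw [hF]
    exact hci.ofReal
  let G : ℝ → ℝ≥0 := fun x => Real.toNNReal (ct f x)
  have hG : ∀ x, (G x : ℝ) = ct f x := fun x => Real.coe_toNNReal _ (hnn x)
  have hGm : Measurable G := hcc.measurable.real_toNNReal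
  let Q : Measure ℝ := volume.withDensity fun x => (G x : ENNReal)
  have hQ : IsFiniteMeasure Q := isFiniteMeasure_withDensity hci.lintegral_lt_top.ne
  let P : Measure ℝ := Q.map (fun x => (2 * Real.pi) • x)
  have hPm : Measurable (fun x : ℝ => (2 * Real.pi) • x) := by fun_prop
  have hPf : IsFiniteMeasure P := Measure.isFiniteMeasure_map Q _
  have hchar : ∀ x, charFun P x = (f x : ℂ) := by
    intro x
    rw [charFun_apply, integral_map hPm.aemeasurable (by fun_prop)]
    rw [integral_withDensity_eq_integral_smul hGm]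
    have h1 := congrFun hinv x
    rw [Real.fourierInv_eq'] at h1
    rw [← h1]
    refine integral_congr_ae (Filter.Eventually.of_forall fun ξ => ?_)
    simp only [NNReal.smul_def, hG, inner_smul_left, smul_eq_mul]
    rw [Complex.real_smul, mul_comm]
    simp
    left
    congr 1
    ring
  refine ⟨P, ⟨?_⟩, hchar⟩
  have h1 := hchar 0
  rw [charFun_zero, h0] at h1
  have h2 : P.real Set.univ = 1 := by exact_mod_cast h1
  rw [measureReal_def] at h2
  rw [← ENNReal.ofReal_toReal (measure_ne_top P Set.univ), h2, ENNReal.ofReal_one]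


/-- the Wendland function -/
noncomputable def wF (x : ℝ) : ℝ := (max (1 - |x|) 0) ^ 3 * (1 + 3 * |x|)

lemma wF_cont : Continuous wF := by unfold wF; fun_prop

lemma wF_even (x : ℝ) : wF (-x) = wF x := by simp [wF]

lemma wF_zero : wF 0 = 1 := by simp [wF]

lemma wF_supp {x : ℝ} (h : 1 ≤ |x|) : wF x = 0 := by
  unfold wF
  rw [max_eq_right (by linarith)]
  simp

lemma wF_nonneg (x : ℝ) : 0 ≤ wF x := by unfold wF; positivity

lemma wF_le_one (x : ℝ) : wF x ≤ 1 := by
  by_cases h : 1 ≤ |x|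
  · rw [wF_supp h]; norm_num
  · push Not at h
    unfold wF
    rw [max_eq_left (by linarith)]
    have h0 := abs_nonneg x
    set y := |x|
    have : (1 - y) ^ 3 * (1 + 3 * y) = 1 - y ^ 2 * (6 - 8 * y + 3 * y ^ 2) := by ring
    rw [this]
    have : 0 ≤ 6 - 8 * y + 3 * y ^ 2 := by nlinarith [sq_nonneg (3 * y - 4)]
    have := mul_nonneg (sq_nonneg y) this
    linarith

lemma wF_abs_le (x : ℝ) : |wF x| ≤ 1 := by
  rw [abs_of_nonneg (wF_nonneg x)]; exact wF_le_one x

lemma wF_int : Integrable wF := by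
  refine wF_cont.integrable_of_hasCompactSupport ?_
  refine HasCompactSupport.intro (K := Icc (-1) 1) isCompact_Icc fun x hx => wF_supp ?_
  by_contra h
  push Not at h
  have := abs_lt.1 h
  exact hx ⟨this.1.le, this.2.le⟩

lemma w_nonneg_aux {f f' : ℝ → ℝ} (h0 : f 0 = 0) (hd : ∀ x, HasDerivAt f (f' x) x)
    (hn : ∀ x ∈ Icc (0:ℝ) Real.pi, 0 ≤ f' x) : ∀ x ∈ Icc (0:ℝ) Real.pi, 0 ≤ f x := by
  intro x hx
  have hm : MonotoneOn f (Icc 0 Real.pi) := by
    refine monotoneOn_of_deriv_nonneg (convex_Icc 0 Real.pi)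
      (fun y _ => (hd y).continuousAt.continuousWithinAt)
      (fun y _ => (hd y).differentiableAt.differentiableWithinAt) ?_
    intro y hy
    rw [(hd y).deriv]
    exact hn y (interior_subset hy)
  rw [← h0]
  exact hm (left_mem_Icc.2 Real.pi_pos.le) hx hx.1

lemma w_key {s : ℝ} (hs : 0 ≤ s) : 0 ≤ 2 * s + s * Real.cos s - 3 * Real.sin s := by
  by_cases h3 : 3 ≤ s
  · have h1 := Real.neg_one_le_cos s
    have h2 := Real.sin_le_one s
    nlinarith
  · push Not at h3
    have hpi := Real.pi_gt_three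
    have a1 : ∀ x ∈ Icc (0:ℝ) Real.pi, 0 ≤ Real.sin x - x * Real.cos x := by
      refine w_nonneg_aux (f' := fun x => x * Real.sin x) (by simp) (fun x => ?_) ?_
      · have := (Real.hasDerivAt_sin x).sub ((hasDerivAt_id x).mul (Real.hasDerivAt_cos x))
        exact this.congr_deriv (by simp)
      · intro x hx
        exact mul_nonneg hx.1 (Real.sin_nonneg_of_mem_Icc hx)
    have a2 : ∀ x ∈ Icc (0:ℝ) Real.pi, 0 ≤ 2 - 2 * Real.cos x - x * Real.sin x := by
      refine w_nonneg_aux (f' := fun x => Real.sin x - x * Real.cos x) (by simp) (fun x => ?_) a1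
      have := (((Real.hasDerivAt_cos x).const_mul 2).const_sub 2).sub
        ((hasDerivAt_id x).mul (Real.hasDerivAt_sin x))
      exact this.congr_deriv (by simp; ring)
    refine w_nonneg_aux (f := fun s => 2 * s + s * Real.cos s - 3 * Real.sin s)
      (f' := fun x => 2 - 2 * Real.cos x - x * Real.sin x) (by simp) (fun x => ?_) a2 s
      ⟨hs, by linarith⟩
    have := (((hasDerivAt_id x).const_mul 2).add ((hasDerivAt_id x).mul (Real.hasDerivAt_cos x))).sub
      ((Real.hasDerivAt_sin x).const_mul 3)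
    exact this.congr_deriv (by simp; ring)

lemma w_half {s : ℝ} (hs : 0 < s) : ∫ x in (0:ℝ)..1, (1 - 6 * x ^ 2 + 8 * x ^ 3 - 3 * x ^ 4) * Real.cos (s * x) =
    24 * (2 * s + s * Real.cos s - 3 * Real.sin s) / s ^ 5 := by
  have hs' := hs.ne'
  have hd : ∀ x : ℝ, HasDerivAt (fun x : ℝ => (1 - 6 * x ^ 2 + 8 * x ^ 3 - 3 * x ^ 4) * Real.sin (s * x) / s +
      (-12 * x + 24 * x ^ 2 - 12 * x ^ 3) * Real.cos (s * x) / s ^ 2 -
      (-12 + 48 * x - 36 * x ^ 2) * Real.sin (s * x) / s ^ 3 -
      (48 - 72 * x) * Real.cos (s * x) / s ^ 4 + (-72) * Real.sin (s * x) / s ^ 5)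
      ((1 - 6 * x ^ 2 + 8 * x ^ 3 - 3 * x ^ 4) * Real.cos (s * x)) x := by
    intro x
    have hsin : HasDerivAt (fun x : ℝ => Real.sin (s * x)) (Real.cos (s * x) * s) x := by
      have := ((hasDerivAt_id x).const_mul s).sin
      exact this.congr_deriv (by simp)
    have hcos : HasDerivAt (fun x : ℝ => Real.cos (s * x)) (-Real.sin (s * x) * s) x := by
      have := ((hasDerivAt_id x).const_mul s).cos
      exact this.congr_deriv (by simp)
    have p0 : HasDerivAt (fun x : ℝ => 1 - 6 * x ^ 2 + 8 * x ^ 3 - 3 * x ^ 4)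
        (-12 * x + 24 * x ^ 2 - 12 * x ^ 3) x := by
      have := ((((hasDerivAt_pow 2 x).const_mul 6).const_sub 1).add
        ((hasDerivAt_pow 3 x).const_mul 8)).sub ((hasDerivAt_pow 4 x).const_mul 3)
      exact this.congr_deriv (by push_cast; ring)
    have p1 : HasDerivAt (fun x : ℝ => -12 * x + 24 * x ^ 2 - 12 * x ^ 3)
        (-12 + 48 * x - 36 * x ^ 2) x := by
      have := (((hasDerivAt_id x).const_mul (-12)).add
        ((hasDerivAt_pow 2 x).const_mul 24)).sub ((hasDerivAt_pow 3 x).const_mul 12)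
      exact this.congr_deriv (by push_cast; ring)
    have p2 : HasDerivAt (fun x : ℝ => -12 + 48 * x - 36 * x ^ 2)
        (48 - 72 * x) x := by
      have := (((hasDerivAt_id x).const_mul 48).const_add (-12)).sub
        ((hasDerivAt_pow 2 x).const_mul 36)
      exact this.congr_deriv (by push_cast; ring)
    have p3 : HasDerivAt (fun x : ℝ => 48 - 72 * x) (-72) x := by
      have := (((hasDerivAt_id x).const_mul 72).const_sub 48)
      exact this.congr_deriv (by ring)
    have := (((((p0.mul hsin).div_const s).add ((p1.mul hcos).div_const (s ^ 2))).sub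
      ((p2.mul hsin).div_const (s ^ 3))).sub ((p3.mul hcos).div_const (s ^ 4))).add
      ((hsin.const_mul (-72)).div_const (s ^ 5))
    refine this.congr_deriv ?_
    field_simp
    ring
  rw [intervalIntegral.integral_eq_sub_of_hasDerivAt (fun x _ => hd x)
    ((by fun_prop : Continuous _).intervalIntegrable _ _)]
  simp only [mul_one, mul_zero, Real.sin_zero, Real.cos_zero]
  field_simp
  ring

lemma w_ct_nonneg (ξ : ℝ) : 0 ≤ ct wF ξ := by
  set s := |2 * Real.pi * ξ| with hs
  have h1 : ct wF ξ = ∫ x : ℝ, (fun y => wF y * Real.cos (s * y)) |x| := by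
    unfold ct
    refine integral_congr_ae (Filter.Eventually.of_forall fun x => ?_)
    have e1 : wF |x| = wF x := by simp [wF]
    have e2 : Real.cos (s * |x|) = Real.cos (2 * Real.pi * ⟪x, ξ⟫) := by
      rw [hs, ← abs_mul, Real.cos_abs]
      congr 1
      simp only [RCLike.inner_apply, conj_trivial]
      ring
    simp only [e1, e2]
  rw [h1, integral_comp_abs (f := fun y => wF y * Real.cos (s * y))]
  have h2 : ∫ x in Ioi (0:ℝ), wF x * Real.cos (s * x) =
      ∫ x in (0:ℝ)..1, (1 - 6 * x ^ 2 + 8 * x ^ 3 - 3 * x ^ 4) * Real.cos (s * x) := by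
    rw [intervalIntegral.integral_of_le zero_le_one]
    rw [setIntegral_eq_of_subset_of_forall_sdiff_eq_zero measurableSet_Ioi
      (fun x (hx : x ∈ Ioc (0:ℝ) 1) => hx.1)
      (f := fun x => wF x * Real.cos (s * x))]
    · refine setIntegral_congr_fun measurableSet_Ioc fun x hx => ?_
      simp only [wF]
      rw [abs_of_pos hx.1, max_eq_left (by linarith [hx.2])]
      ring
    · rintro x ⟨hx1, hx2⟩
      have : 1 < x := by
        by_contra h
        push Not at h
        exact hx2 ⟨hx1, h⟩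
      rw [wF_supp (by rw [abs_of_pos hx1]; exact this.le), zero_mul]
  rw [h2]
  rcases (abs_nonneg (2 * Real.pi * ξ)).eq_or_lt with h0 | h0
  · rw [← hs] at h0
    rw [← h0]
    refine mul_nonneg zero_le_two (intervalIntegral.integral_nonneg zero_le_one fun x hx => ?_)
    have : (1 - 6 * x ^ 2 + 8 * x ^ 3 - 3 * x ^ 4) = (1 - x) ^ 3 * (1 + 3 * x) := by ring
    rw [this]
    have h1 : 0 ≤ 1 - x := by linarith [hx.2]
    have h2 := hx.1
    simp only [zero_mul, Real.cos_zero]
    positivity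
  · rw [← hs] at h0
    rw [w_half h0]
    have := w_key h0.le
    positivity

theorem wend : ∃ m : Measure ℝ, IsProbabilityMeasure m ∧
    ∀ t : ℝ, charFun m t = (((max (1 - |t|) 0) ^ 3 * (1 + 3 * |t|) : ℝ) : ℂ) :=
  bochner_nn w_ct_nonneg wF_cont wF_abs_le wF_int wF_even wF_zero

end Pool.Agent.R963.TS
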